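import Pool.Agent.Q62.PC.Defs

/-!
Definitions for the limiting profile: the space `D^{1,2}(ℝᴺ)` and the rescaled functions.
-/

open MeasureTheory Set Filter Topology
open scoped ENNReal NNReal ContDiff

namespace Pool.Agent.Q62.PC

/-- the exponent `2* = 2N/(N-2)` -/
noncomputable def ps (N : ℕ) : ℝ≥0∞ := ENNReal.ofReal (2 * N / ((N : ℝ) - 2))

/-- `v ∈ D^{1,2}(ℝᴺ)` and `G = ∇v`: the pair `(v, G)` is the limit in `L^{2*} × L²` of pairs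
`(φ k, ∇φ k)` with `φ k ∈ C_c^∞(ℝᴺ)` -/
def InD {N : ℕ} (v : E N → ℝ) (G : E N → E N) : Prop :=
  MemLp v (ps N) volume ∧ MemLp G 2 volume ∧ ∃ φ : ℕ → E N → ℝ, (∀ k, IsTest (φ k)) ∧
    Tendsto (fun k => eLpNorm (φ k - v) (ps N) volume) atTop (𝓝 0) ∧
    Tendsto (fun k => eLpNorm (gradient (φ k) - G) 2 volume) atTop (𝓝 0)

/-- weak convergence in `D^{1,2}(ℝᴺ)` of functions with gradients `G n` to a function with
gradient `G0`: `∫ ∇vₙ · ∇w → ∫ ∇v · ∇w` for all `w ∈ D^{1,2}(ℝᴺ)` -/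
def WeakD {N : ℕ} (G : ℕ → E N → E N) (G0 : E N → E N) : Prop :=
  ∀ (w : E N → ℝ) (H : E N → E N), InD w H →
    Tendsto (fun n => ∫ x, (inner ℝ (G n x) (H x) : ℝ)) atTop (𝓝 (∫ x, inner ℝ (G0 x) (H x)))

/-- the rescaled function `v(x) = ε^{2/(p-2)} u(εx + k)` -/
noncomputable def resc {N : ℕ} (p ε : ℝ) (k : Fin N → ℤ) (u : E N → ℝ) (x : E N) : ℝ :=
  ε ^ (2 / (p - 2)) * u (ε • x + pt k)

/-- the gradient of the rescaled function, `g = ∇u` -/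
noncomputable def rescG {N : ℕ} (p ε : ℝ) (k : Fin N → ℤ) (g : E N → E N) (x : E N) : E N :=
  ε ^ (2 / (p - 2) + 1) • g (ε • x + pt k)

end Pool.Agent.Q62.PC
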