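import Pool.Agent.Q62.PC.ConcP
import Pool.Agent.Q62.PD.Defs

/-! The space `D^{1,2}`. -/

open MeasureTheory Set Filter Topology
open scoped ENNReal NNReal ContDiff

namespace Pool.Agent.Q62.PC

theorem ps_eq (N : ℕ) : ps N = ((Real.toNNReal (2 * N / ((N : ℝ) - 2)) : ℝ≥0) : ℝ≥0∞) := rfl

theorem two_lt_ps {N : ℕ} (hN : 3 ≤ N) : 2 < 2 * (N : ℝ) / ((N : ℝ) - 2) := by
  have h3 : (3 : ℝ) ≤ N := by exact_mod_cast hN
  rw [lt_div_iff₀ (by linarith)]
  linarith

theorem ps_ge {N : ℕ} (hN : 3 ≤ N) : 1 ≤ ps N := by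
  have h := two_lt_ps hN
  unfold ps
  rw [← ENNReal.ofReal_one]
  exact ENNReal.ofReal_le_ofReal (by linarith)

theorem ps_top (N : ℕ) : ps N ≠ ⊤ := ENNReal.ofReal_ne_top

theorem ps_toReal {N : ℕ} (hN : 3 ≤ N) : (ps N).toReal = 2 * (N : ℝ) / ((N : ℝ) - 2) := by
  have h := two_lt_ps hN
  unfold ps
  rw [ENNReal.toReal_ofReal (by linarith)]

/-- the Sobolev inequality -/
theorem sob (N : ℕ) (hN : 3 ≤ N) : ∃ C : ℝ≥0, ∀ φ : E N → ℝ, IsTest φ →
    eLpNorm φ (ps N) volume ≤ C * eLpNorm (gradient φ) 2 volume := by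
  have h3 : (3 : ℝ) ≤ N := by exact_mod_cast hN
  have hts := two_lt_ps hN
  refine ⟨SNormLESNormFDerivOfEqConst ℝ (volume : Measure (E N)) ((2 : ℝ≥0) : ℝ), ?_⟩
  intro φ hφ
  have key := eLpNorm_le_eLpNorm_fderiv_of_eq (volume : Measure (E N)) (p := 2)
    (p' := Real.toNNReal (2 * N / ((N : ℝ) - 2))) hφ.c1 hφ.2
    one_le_two (by simp only [finrank_euclideanSpace, Fintype.card_fin]; omega) (by
      rw [Real.coe_toNNReal _ (by linarith)]
      simp only [finrank_euclideanSpace, Fintype.card_fin]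
      push_cast
      have : (N : ℝ) - 2 ≠ 0 := by linarith
      have : (N : ℝ) ≠ 0 := by linarith
      field_simp)
  rw [ps_eq]
  refine key.trans (le_of_eq ?_)
  congr 1
  refine eLpNorm_congr_norm_ae (Eventually.of_forall fun x => ?_)
  rw [norm_gradient_eq]

section lims

variable {N : ℕ} {F : Type*} [NormedAddCommGroup F] {q : ℝ≥0∞}

theorem lim_add' (hq : 1 ≤ q) {f g : ℕ → E N → F} {f0 g0 : E N → F}
    (hf : ∀ k, MemLp (f k) q volume) (hf0 : MemLp f0 q volume)
    (hg : ∀ k, MemLp (g k) q volume) (hg0 : MemLp g0 q volume)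
    (h1 : Tendsto (fun k => eLpNorm (f k - f0) q volume) atTop (𝓝 0))
    (h2 : Tendsto (fun k => eLpNorm (g k - g0) q volume) atTop (𝓝 0)) :
    Tendsto (fun k => eLpNorm ((f k + g k) - (f0 + g0)) q volume) atTop (𝓝 0) := by
  have h3 := h1.add h2
  rw [add_zero] at h3
  refine tendsto_of_tendsto_of_tendsto_of_le_of_le tendsto_const_nhds h3 (fun k => bot_le)
    (fun k => ?_)
  have e : (f k + g k) - (f0 + g0) = (f k - f0) + (g k - g0) := by abel
  simp only [e]
  exact eLpNorm_add_le ((hf k).sub hf0).aestronglyMeasurable ((hg k).sub hg0).aestronglyMeasurable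
    hq

theorem lim_le' {G : Type*} [NormedAddCommGroup G]
    {f : ℕ → E N → F} {g : ℕ → E N → G} (M : ℝ)
    (hle : ∀ k x, ‖f k x‖ ≤ M * ‖g k x‖)
    (h : Tendsto (fun k => eLpNorm (g k) q volume) atTop (𝓝 0)) :
    Tendsto (fun k => eLpNorm (f k) q volume) atTop (𝓝 0) := by
  have h3 : Tendsto (fun k => ENNReal.ofReal M * eLpNorm (g k) q volume) atTop (𝓝 0) := by
    have := ENNReal.Tendsto.const_mul (a := ENNReal.ofReal M) h (Or.inr ENNReal.ofReal_ne_top)
    rwa [mul_zero] at this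
  refine tendsto_of_tendsto_of_tendsto_of_le_of_le tendsto_const_nhds h3 (fun k => bot_le)
    (fun k => ?_)
  exact eLpNorm_le_mul_eLpNorm_of_ae_le_mul (Eventually.of_forall (hle k)) q

end lims

theorem InD.congr {N : ℕ} {v v' : E N → ℝ} {G G' : E N → E N} (h : InD v G)
    (hv : v =ᵐ[volume] v') (hG : G =ᵐ[volume] G') : InD v' G' := by
  obtain ⟨h1, h2, φ, h3, h4, h5⟩ := h
  refine ⟨(memLp_congr_ae hv).1 h1, (memLp_congr_ae hG).1 h2, φ, h3, ?_, ?_⟩
  · refine h4.congr fun k => eLpNorm_congr_ae ?_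
    filter_upwards [hv] with x hx
    simp only [Pi.sub_apply, hx]
  · refine h5.congr fun k => eLpNorm_congr_ae ?_
    filter_upwards [hG] with x hx
    simp only [Pi.sub_apply, hx]

theorem InD.add {N : ℕ} (hN : 3 ≤ N) {u v : E N → ℝ} {g h : E N → E N} (hu : InD u g)
    (hv : InD v h) : InD (u + v) (g + h) := by
  obtain ⟨u1, u2, φ, u3, u4, u5⟩ := hu
  obtain ⟨v1, v2, ψ, v3, v4, v5⟩ := hv
  refine ⟨u1.add v1, u2.add v2, fun k => φ k + ψ k, fun k => ⟨(u3 k).1.add (v3 k).1,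
    (u3 k).2.add (v3 k).2⟩, lim_add' (ps_ge hN) (fun k => (u3 k).memLp _) u1
    (fun k => (v3 k).memLp _) v1 u4 v4, ?_⟩
  have e : ∀ k, gradient (φ k + ψ k) = gradient (φ k) + gradient (ψ k) :=
    fun k => grad_add (u3 k).c1 (v3 k).c1
  simp only [e]
  exact lim_add' (by norm_num) (fun k => (u3 k).grad_memLp 2) u2 (fun k => (v3 k).grad_memLp 2)
    v2 u5 v5

theorem InD.smul {N : ℕ} {u : E N → ℝ} {g : E N → E N} (hu : InD u g) (c : ℝ) :
    InD (fun x => c * u x) (fun x => c • g x) := by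
  obtain ⟨u1, u2, φ, u3, u4, u5⟩ := hu
  refine ⟨u1.const_mul c, u2.const_smul c, fun k x => c * φ k x,
    fun k => ⟨contDiff_const.mul (u3 k).1, (u3 k).2.mul_left⟩, ?_, ?_⟩
  · refine lim_le' |c| (fun k x => ?_) u4
    simp only [Pi.sub_apply]
    rw [← mul_sub, norm_mul, Real.norm_eq_abs]
  · have e : ∀ k, gradient (fun x => c * φ k x) = fun x => c • gradient (φ k) x :=
      fun k => grad_smul (u3 k).c1 c
    simp only [e]
    refine lim_le' |c| (fun k x => ?_) u5
    simp only [Pi.sub_apply]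
    rw [← smul_sub, norm_smul, Real.norm_eq_abs]

theorem InD.sub {N : ℕ} (hN : 3 ≤ N) {u v : E N → ℝ} {g h : E N → E N} (hu : InD u g)
    (hv : InD v h) : InD (fun x => u x - v x) (fun x => g x - h x) := by
  have h1 := hu.add hN (hv.smul (-1))
  have e1 : (u + fun x => -1 * v x) = fun x => u x - v x := by
    funext x; simp only [Pi.add_apply]; ring
  have e2 : (g + fun x => (-1 : ℝ) • h x) = fun x => g x - h x := by
    funext x; simp only [Pi.add_apply, neg_smul, one_smul]; abel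
  rwa [e1, e2] at h1

theorem InD.sob {N : ℕ} (hN : 3 ≤ N) {C : ℝ≥0} (hC : ∀ φ : E N → ℝ, IsTest φ →
    eLpNorm φ (ps N) volume ≤ C * eLpNorm (gradient φ) 2 volume) {v : E N → ℝ} {G : E N → E N}
    (h : InD v G) : eLpNorm v (ps N) volume ≤ C * eLpNorm G 2 volume := by
  obtain ⟨h1, h2, φ, h3, h4, h5⟩ := h
  have hle : ∀ k, eLpNorm v (ps N) volume ≤
      C * (eLpNorm G 2 volume + eLpNorm (gradient (φ k) - G) 2 volume) +
        eLpNorm (φ k - v) (ps N) volume := by
    intro k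
    have e1 : v = φ k - (φ k - v) := by abel
    have e2 : gradient (φ k) = G + (gradient (φ k) - G) := by abel
    have a1 : eLpNorm v (ps N) volume ≤ eLpNorm (φ k) (ps N) volume +
        eLpNorm (φ k - v) (ps N) volume := by
      calc eLpNorm v (ps N) volume = eLpNorm (φ k - (φ k - v)) (ps N) volume := by rw [← e1]
        _ ≤ _ := eLpNorm_sub_le ((h3 k).memLp (ps N)).1 (((h3 k).memLp (ps N)).sub h1).1
            (ps_ge hN)
    have a2 : eLpNorm (gradient (φ k)) 2 volume ≤ eLpNorm G 2 volume +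
        eLpNorm (gradient (φ k) - G) 2 volume := by
      calc eLpNorm (gradient (φ k)) 2 volume = eLpNorm (G + (gradient (φ k) - G)) 2 volume := by
            rw [← e2]
        _ ≤ _ := eLpNorm_add_le h2.1 (((h3 k).grad_memLp 2).sub h2).1 (by norm_num)
    calc eLpNorm v (ps N) volume ≤ _ := a1
      _ ≤ C * eLpNorm (gradient (φ k)) 2 volume + eLpNorm (φ k - v) (ps N) volume := by
          gcongr
          exact hC _ (h3 k)
      _ ≤ _ := by gcongr
  have hlim : Tendsto (fun k => C * (eLpNorm G 2 volume + eLpNorm (gradient (φ k) - G) 2 volume) +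
      eLpNorm (φ k - v) (ps N) volume) atTop (𝓝 (C * (eLpNorm G 2 volume + 0) + 0)) := by
    refine Tendsto.add ?_ h4
    exact ENNReal.Tendsto.const_mul (tendsto_const_nhds.add h5) (Or.inr ENNReal.coe_ne_top)
  rw [add_zero, add_zero] at hlim
  exact ge_of_tendsto' hlim hle

/-- uniqueness of the potential -/
theorem InD.unique {N : ℕ} (hN : 3 ≤ N) {u v : E N → ℝ} {g h : E N → E N} (hu : InD u g)
    (hv : InD v h) (hgh : g =ᵐ[volume] h) : u =ᵐ[volume] v := by
  obtain ⟨C, hC⟩ := PC.sob N hN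
  have h1 := (hu.sub hN hv).sob hN hC
  have hm1 : AEStronglyMeasurable (fun x => g x - h x) (volume : Measure (E N)) :=
    (hu.2.1.sub hv.2.1).1
  have hm2 : AEStronglyMeasurable (fun x => u x - v x) (volume : Measure (E N)) :=
    (hu.1.sub hv.1).1
  have h2 : eLpNorm (fun x => g x - h x) 2 volume = 0 := by
    rw [eLpNorm_eq_zero_iff hm1 (by norm_num)]
    filter_upwards [hgh] with x hx
    simp [hx]
  rw [h2, mul_zero, nonpos_iff_eq_zero, eLpNorm_eq_zero_iff hm2
    (by have := ps_ge hN; intro h0; rw [h0] at this; simp at this)] at h1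
  filter_upwards [h1] with x hx
  have : u x - v x = 0 := hx
  linarith

/-- existence of the potential -/
theorem exists_pot {N : ℕ} (hN : 3 ≤ N) {G : E N → E N} (hG : MemLp G 2 volume)
    {φ : ℕ → E N → ℝ} (hφ : ∀ k, IsTest (φ k))
    (hlim : Tendsto (fun k => eLpNorm (gradient (φ k) - G) 2 volume) atTop (𝓝 0)) :
    ∃ v, MemLp v (ps N) volume ∧
      Tendsto (fun k => eLpNorm (φ k - v) (ps N) volume) atTop (𝓝 0) := by
  obtain ⟨C, hC⟩ := sob N hN
  haveI : Fact (1 ≤ ps N) := ⟨ps_ge hN⟩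
  haveI : Fact ((1 : ℝ≥0∞) ≤ 2) := ⟨by norm_num⟩
  have h1 := (Lp.tendsto_Lp_iff_tendsto_eLpNorm'' (fun k => gradient (φ k))
    (fun k => (hφ k).grad_memLp 2) G hG).2 hlim
  have hcau := h1.cauchySeq
  have hcau2 : CauchySeq fun k => ((hφ k).memLp (ps N)).toLp (φ k) := by
    rw [Metric.cauchySeq_iff] at hcau ⊢
    intro e he
    obtain ⟨n0, hn0⟩ := hcau (e / (C + 1)) (by positivity)
    refine ⟨n0, fun m hm n hn => ?_⟩
    have h2 := hn0 m hm n hn
    rw [Lp.dist_edist, Lp.edist_toLp_toLp] at h2 ⊢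
    have e1 : gradient (φ m) - gradient (φ n) = gradient (φ m - φ n) := by
      have h3 := grad_add (hφ m).c1 (φ := φ m) (ψ := fun x => -1 * φ n x)
        (contDiff_const.mul (hφ n).c1)
      have h4 := grad_smul (hφ n).c1 (-1)
      have h5 : φ m - φ n = φ m + fun x => -1 * φ n x := by
        funext x; simp only [Pi.sub_apply, Pi.add_apply]; ring
      rw [h5, h3, h4]
      funext x
      simp only [Pi.sub_apply, Pi.add_apply, neg_smul, one_smul]
      abel
    have hT : IsTest (φ m - φ n) := ⟨(hφ m).1.sub (hφ n).1, (hφ m).2.sub (hφ n).2⟩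
    have h6 := hC _ hT
    rw [e1] at h2
    have hfin : eLpNorm (gradient (φ m - φ n)) 2 volume ≠ ⊤ := (hT.grad_memLp 2).2.ne
    have h7 : (eLpNorm (φ m - φ n) (ps N) volume).toReal ≤
        C * (eLpNorm (gradient (φ m - φ n)) 2 volume).toReal := by
      have := ENNReal.toReal_mono (ENNReal.mul_ne_top ENNReal.coe_ne_top hfin) h6
      rwa [ENNReal.toReal_mul, ENNReal.coe_toReal] at this
    have h8 : (0 : ℝ) ≤ C := C.2
    have h9 : (eLpNorm (gradient (φ m - φ n)) 2 volume).toReal * (C + 1) < e := by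
      rwa [lt_div_iff₀ (by positivity)] at h2
    have h10 : 0 ≤ (eLpNorm (gradient (φ m - φ n)) 2 volume).toReal := ENNReal.toReal_nonneg
    nlinarith
  obtain ⟨v, hv⟩ := cauchySeq_tendsto_of_complete hcau2
  refine ⟨v, Lp.memLp v, ?_⟩
  have h2 := (Lp.tendsto_Lp_iff_tendsto_eLpNorm'' (fi := atTop) φ
    (fun k => (hφ k).memLp (ps N)) v (Lp.memLp v)).1
  rw [Lp.toLp_coeFn] at h2
  exact h2 hv

theorem InH1.inD {N : ℕ} (hN : 3 ≤ N) {u : E N → ℝ} {g : E N → E N} (hu : InH1 u g) :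
    InD u g := by
  obtain ⟨u1, u2, φ, u3, u4, u5⟩ := hu
  obtain ⟨v, hv1, hv2⟩ := exists_pot hN u2 u3 u5
  have m1 : TendstoInMeasure volume φ atTop u :=
    tendstoInMeasure_of_tendsto_eLpNorm (by norm_num) (fun k => ((u3 k).memLp 2).1) u1.1 u4
  have m2 : TendstoInMeasure volume φ atTop v :=
    tendstoInMeasure_of_tendsto_eLpNorm
      (by have := ps_ge hN; intro h0; rw [h0] at this; simp at this)
      (fun k => ((u3 k).memLp 2).1) hv1.1 hv2
  have hae : v =ᵐ[volume] u := tendstoInMeasure_ae_unique m2 m1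
  exact InD.congr ⟨hv1, u2, φ, u3, hv2, u5⟩ hae (ae_eq_refl _)

theorem InD.of_test {N : ℕ} {φ : E N → ℝ} (h : IsTest φ) : InD φ (gradient φ) :=
  ⟨h.memLp _, h.grad_memLp 2, fun _ => φ, fun _ => h, by simp, by simp⟩

end Pool.Agent.Q62.PC
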