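import Pool.Agent.Q62.PD.D1

/-! Weak compactness and representation of averages in `D^{1,2}`. -/

open MeasureTheory Set Filter Topology
open scoped ENNReal NNReal ContDiff

namespace Pool.Agent.Q62.PC

/-- `L²(ℝᴺ; ℝᴺ)` -/
noncomputable abbrev LL (N : ℕ) := Lp (E N) 2 (volume : Measure (E N))

/-- the gradients -/
noncomputable def GG (N : ℕ) (hN : 3 ≤ N) : Submodule ℝ (LL N) where
  carrier := {F | ∃ v, InD v F}
  add_mem' := by
    rintro F F' ⟨v, h⟩ ⟨v', h'⟩
    exact ⟨v + v', (h.add hN h').congr (ae_eq_refl _) (Lp.coeFn_add F F').symm⟩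
  zero_mem' := by
    have hT : IsTest (0 : E N → ℝ) := ⟨contDiff_const, HasCompactSupport.zero⟩
    refine ⟨0, (InD.of_test hT).congr (ae_eq_refl _) ?_⟩
    filter_upwards [Lp.coeFn_zero (E N) 2 (volume : Measure (E N))] with x hx
    rw [hx]
    simp [gradient]
  smul_mem' := by
    rintro c F ⟨v, h⟩
    exact ⟨fun x => c * v x, (h.smul c).congr (ae_eq_refl _) (Lp.coeFn_smul c F).symm⟩

theorem GG_closed (N : ℕ) (hN : 3 ≤ N) : IsClosed (GG N hN : Set (LL N)) := by
  rw [← isSeqClosed_iff_isClosed]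
  intro F F0 hF hlim
  have hch : ∀ k, ∃ φ : E N → ℝ, IsTest φ ∧
      eLpNorm (gradient φ - (F k : E N → E N)) 2 volume < ENNReal.ofReal (1 / (k + 1)) := by
    intro k
    obtain ⟨v, h1, h2, φ, h3, h4, h5⟩ := hF k
    have hpos : (0 : ℝ≥0∞) < ENNReal.ofReal (1 / (k + 1)) := by
      rw [ENNReal.ofReal_pos]; positivity
    obtain ⟨j, hj⟩ := (h5.eventually (gt_mem_nhds hpos)).exists
    exact ⟨φ j, h3 j, hj⟩
  choose φ hφ hφ2 using hch
  have h1 := (Lp.tendsto_Lp_iff_tendsto_eLpNorm' F F0).1 hlim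
  have h2 : Tendsto (fun k : ℕ => ENNReal.ofReal (1 / ((k : ℝ) + 1))) atTop (𝓝 0) := by
    have := ENNReal.tendsto_ofReal (tendsto_one_div_add_atTop_nhds_zero_nat (𝕜 := ℝ))
    rwa [ENNReal.ofReal_zero] at this
  have h3 : Tendsto (fun k => eLpNorm (gradient (φ k) - (F0 : E N → E N)) 2 volume)
      atTop (𝓝 0) := by
    have h4 := h2.add h1
    rw [add_zero] at h4
    refine tendsto_of_tendsto_of_tendsto_of_le_of_le tendsto_const_nhds h4 (fun k => bot_le)
      (fun k => ?_)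
    have e : gradient (φ k) - (F0 : E N → E N) = (gradient (φ k) - (F k : E N → E N)) +
        ((F k : E N → E N) - (F0 : E N → E N)) := by abel
    simp only
    rw [e]
    refine (eLpNorm_add_le (((hφ k).grad_memLp 2).sub (Lp.memLp _)).1
      ((Lp.memLp _).sub (Lp.memLp _)).1 (by norm_num)).trans ?_
    gcongr
    exact (hφ2 k).le
  obtain ⟨v, hv1, hv2⟩ := exists_pot hN (Lp.memLp F0) hφ h3
  exact ⟨v, hv1, Lp.memLp F0, φ, hφ, hv2, h3⟩

instance (N : ℕ) (hN : 3 ≤ N) : CompleteSpace (GG N hN) :=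
  (GG_closed N hN).completeSpace_coe

theorem GG_mem {N : ℕ} (hN : 3 ≤ N) {v : E N → ℝ} {G : E N → E N} (h : InD v G) :
    h.2.1.toLp G ∈ GG N hN := ⟨v, h.congr (ae_eq_refl _) (MemLp.coeFn_toLp h.2.1).symm⟩

theorem inner_toLp {N : ℕ} {G H : E N → E N} (hG : MemLp G 2 (volume : Measure (E N)))
    (hH : MemLp H 2 (volume : Measure (E N))) :
    (inner ℝ (hG.toLp G) (hH.toLp H) : ℝ) = ∫ x, inner ℝ (G x) (H x) := by
  rw [L2.inner_def]
  refine integral_congr_ae ?_
  filter_upwards [MemLp.coeFn_toLp hG, MemLp.coeFn_toLp hH] with x h1 h2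
  rw [h1, h2]

theorem norm_toLp_le {N : ℕ} {G : E N → E N} (hG : MemLp G 2 (volume : Measure (E N))) {M : ℝ}
    (hM : ∫ x, ‖G x‖ ^ 2 ≤ M) : ‖hG.toLp G‖ ≤ Real.sqrt M := by
  rw [Lp.norm_toLp]
  refine Real.le_sqrt_of_sq_le ?_
  rw [← int_sq hG]; exact hM

/-- sequential weak compactness -/
theorem weak_compact {N : ℕ} (hN : 3 ≤ N) {v : ℕ → E N → ℝ} {G : ℕ → E N → E N}
    (h : ∀ n, InD (v n) (G n)) {M : ℝ} (hM : ∀ n, ∫ x, ‖G n x‖ ^ 2 ≤ M) :
    ∃ φ : ℕ → ℕ, StrictMono φ ∧ ∃ v0 G0, InD v0 G0 ∧ WeakD (fun n => G (φ n)) G0 := by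
  haveI : Fact ((2 : ℝ≥0∞) ≠ ⊤) := ⟨by norm_num⟩
  haveI : SecondCountableTopology (LL N) := inferInstance
  haveI : SecondCountableTopology (GG N hN) := inferInstance
  set F : ℕ → GG N hN := fun n => ⟨(h n).2.1.toLp (G n), GG_mem hN (h n)⟩ with hF
  set f : ℕ → WeakDual ℝ (GG N hN) := fun n => StrongDual.toWeakDual
    (InnerProductSpace.toDual ℝ (GG N hN) (F n)) with hf
  have hb := WeakDual.isSeqCompact_closedBall ℝ (GG N hN) 0 (Real.sqrt M)
  have hfm : ∀ n, f n ∈ WeakDual.toStrongDual ⁻¹' Metric.closedBall 0 (Real.sqrt M) := by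
    intro n
    rw [mem_preimage, Metric.mem_closedBall]
    have e := dist_zero_right (InnerProductSpace.toDual ℝ (GG N hN) (F n))
    rw [LinearIsometryEquiv.norm_map] at e
    exact (le_of_eq e).trans (norm_toLp_le (h n).2.1 (hM n))
  obtain ⟨a, ha, φ, hφ, hlim⟩ := hb hfm
  set W : GG N hN := (InnerProductSpace.toDual ℝ (GG N hN)).symm (WeakDual.toStrongDual a)
    with hW
  obtain ⟨v0, hv0⟩ := W.2
  refine ⟨φ, hφ, v0, (W : LL N), hv0, ?_⟩
  intro w H hwH
  have h1 : Tendsto (fun n => f (φ n) ⟨hwH.2.1.toLp H, GG_mem hN hwH⟩) atTop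
      (𝓝 (a ⟨hwH.2.1.toLp H, GG_mem hN hwH⟩)) :=
    ((WeakDual.eval_continuous (⟨hwH.2.1.toLp H, GG_mem hN hwH⟩ : GG N hN)).tendsto a).comp hlim
  have e1 : ∀ n, f (φ n) ⟨hwH.2.1.toLp H, GG_mem hN hwH⟩ =
      ∫ x, inner ℝ (G (φ n) x) (H x) := by
    intro n
    have : f (φ n) ⟨hwH.2.1.toLp H, GG_mem hN hwH⟩ =
      (inner ℝ ((h (φ n)).2.1.toLp (G (φ n))) (hwH.2.1.toLp H) : ℝ) := rfl
    rw [this, inner_toLp]
  have e2 : a ⟨hwH.2.1.toLp H, GG_mem hN hwH⟩ = ∫ x, inner ℝ ((W : LL N) x) (H x) := by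
    have h2 : a ⟨hwH.2.1.toLp H, GG_mem hN hwH⟩ =
        (inner ℝ W (⟨hwH.2.1.toLp H, GG_mem hN hwH⟩ : GG N hN) : ℝ) := by
      rw [hW, InnerProductSpace.toDual_symm_apply]
      rfl
    rw [h2]
    have h3 : (inner ℝ W (⟨hwH.2.1.toLp H, GG_mem hN hwH⟩ : GG N hN) : ℝ) =
        (inner ℝ (W : LL N) (hwH.2.1.toLp H) : ℝ) := rfl
    rw [h3, L2.inner_def]
    refine integral_congr_ae ?_
    filter_upwards [MemLp.coeFn_toLp hwH.2.1] with x hx
    rw [hx]
  simp only [e1] at h1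
  rw [e2] at h1
  exact h1

/-- the potential of a gradient -/
noncomputable def pot {N : ℕ} (hN : 3 ≤ N) (F : GG N hN) : E N → ℝ := F.2.choose

theorem pot_spec {N : ℕ} (hN : 3 ≤ N) (F : GG N hN) : InD (pot hN F) ((F : LL N) : E N → E N) :=
  F.2.choose_spec

theorem InD.integrableOn {N : ℕ} (hN : 3 ≤ N) {v : E N → ℝ} {G : E N → E N} (h : InD v G)
    (x : E N) (r : ℝ) : IntegrableOn v (Metric.ball x r) (volume : Measure (E N)) := by
  haveI : IsFiniteMeasure ((volume : Measure (E N)).restrict (Metric.ball x r)) :=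
    ⟨by rw [Measure.restrict_apply_univ]; exact measure_ball_lt_top⟩
  have h1 : MemLp v (ps N) (volume.restrict (Metric.ball x r)) := h.1.restrict _
  exact h1.integrable (ps_ge hN)

/-- the averages are controlled by the gradient -/
theorem avg_bound {N : ℕ} (hN : 3 ≤ N) (r : ℝ) : ∃ K : ℝ, 0 ≤ K ∧
    ∀ (v : E N → ℝ) (G : E N → E N), InD v G → ∀ x : E N,
      |∫ y in Metric.ball x r, v y| ≤ K * (eLpNorm G 2 volume).toReal := by
  obtain ⟨C, hC⟩ := sob N hN
  have hpt := ps_toReal hN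
  have h2p := two_lt_ps hN
  set e : ℝ := 1 / (1 : ℝ≥0∞).toReal - 1 / (ps N).toReal with he
  have he0 : 0 ≤ e := by
    rw [he, hpt, ENNReal.toReal_one]
    have : 1 / (2 * (N : ℝ) / ((N : ℝ) - 2)) ≤ 1 := by
      rw [div_le_one (by linarith)]; linarith
    simpa using this
  refine ⟨((C : ℝ≥0∞) * volume (Metric.ball (0 : E N) r) ^ e).toReal, ENNReal.toReal_nonneg, ?_⟩
  intro v G h x
  have hvol : volume (Metric.ball x r) = volume (Metric.ball (0 : E N) r) := by
    rw [Measure.addHaar_ball_center]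
  have h1 := eLpNorm_le_eLpNorm_mul_rpow_measure_univ (μ := volume.restrict (Metric.ball x r))
    (ps_ge hN) (h.1.restrict (Metric.ball x r)).1
  rw [Measure.restrict_apply_univ, hvol, ← he] at h1
  have h2 : eLpNorm v 1 (volume.restrict (Metric.ball x r)) ≤
      (C * volume (Metric.ball (0 : E N) r) ^ e) * eLpNorm G 2 volume := by
    refine h1.trans ?_
    have h3 : eLpNorm v (ps N) (volume.restrict (Metric.ball x r)) ≤ eLpNorm v (ps N) volume :=
      eLpNorm_mono_measure v Measure.restrict_le_self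
    calc _ ≤ (C * eLpNorm G 2 volume) * volume (Metric.ball (0 : E N) r) ^ e := by
          gcongr
          exact h3.trans (h.sob hN hC)
      _ = _ := by ring
  have hfin : (C : ℝ≥0∞) * volume (Metric.ball (0 : E N) r) ^ e * eLpNorm G 2 volume ≠ ⊤ := by
    refine ENNReal.mul_ne_top (ENNReal.mul_ne_top ENNReal.coe_ne_top ?_) h.2.1.2.ne
    exact ENNReal.rpow_ne_top_of_nonneg he0 measure_ball_lt_top.ne
  have h4 : |∫ y in Metric.ball x r, v y| ≤
      (eLpNorm v 1 (volume.restrict (Metric.ball x r))).toReal := by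
    rw [← Real.norm_eq_abs]
    refine (norm_integral_le_integral_norm _).trans (le_of_eq ?_)
    rw [eLpNorm_one_eq_lintegral_enorm, integral_norm_eq_lintegral_enorm
      (h.1.restrict (Metric.ball x r)).1]
  refine h4.trans ?_
  rw [← ENNReal.toReal_mul]
  exact ENNReal.toReal_mono hfin h2

/-- the averages are represented by elements of `D^{1,2}` -/
theorem riesz {N : ℕ} (hN : 3 ≤ N) (x : E N) (r : ℝ) : ∃ w H, InD w H ∧
    ∀ (v : E N → ℝ) (G : E N → E N), InD v G →
      ∫ y in Metric.ball x r, v y = ∫ y, inner ℝ (G y) (H y) := by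
  obtain ⟨K, hK0, hK⟩ := avg_bound hN r
  let T : GG N hN →ₗ[ℝ] ℝ :=
    { toFun := fun F => ∫ y in Metric.ball x r, pot hN F y
      map_add' := by
        intro F F'
        have h1 : pot hN (F + F') =ᵐ[volume] pot hN F + pot hN F' :=
          (pot_spec hN (F + F')).unique hN ((pot_spec hN F).add hN (pot_spec hN F'))
            (Lp.coeFn_add (F : LL N) (F' : LL N))
        rw [integral_congr_ae (ae_restrict_of_ae h1)]
        exact integral_add ((pot_spec hN F).integrableOn hN x r)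
          ((pot_spec hN F').integrableOn hN x r)
      map_smul' := by
        intro c F
        have h1 : pot hN (c • F) =ᵐ[volume] fun y => c * pot hN F y :=
          (pot_spec hN (c • F)).unique hN ((pot_spec hN F).smul c)
            (Lp.coeFn_smul c (F : LL N))
        rw [integral_congr_ae (ae_restrict_of_ae h1), integral_const_mul]
        simp }
  let T' : StrongDual ℝ (GG N hN) := T.mkContinuous K (by
    intro F
    have := hK _ _ (pot_spec hN F) x
    rw [Real.norm_eq_abs]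
    have e : ‖F‖ = (eLpNorm ((F : LL N) : E N → E N) 2 volume).toReal := by
      have : ‖F‖ = ‖(F : LL N)‖ := rfl
      rw [this, Lp.norm_def]
    rw [e]
    exact this)
  set W : GG N hN := (InnerProductSpace.toDual ℝ (GG N hN)).symm T' with hW
  refine ⟨pot hN W, (W : LL N), pot_spec hN W, ?_⟩
  intro v G h
  set F : GG N hN := ⟨h.2.1.toLp G, GG_mem hN h⟩ with hF
  have h1 : T' F = (inner ℝ W F : ℝ) := by
    rw [hW, InnerProductSpace.toDual_symm_apply]
  have h2 : T' F = ∫ y in Metric.ball x r, pot hN F y := rfl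
  have h3 : pot hN F =ᵐ[volume] v := (pot_spec hN F).unique hN h (MemLp.coeFn_toLp h.2.1)
  rw [integral_congr_ae (ae_restrict_of_ae h3)] at h2
  rw [← h2, h1]
  have h4 : (inner ℝ W F : ℝ) = (inner ℝ (W : LL N) (h.2.1.toLp G) : ℝ) := rfl
  rw [h4, L2.inner_def]
  refine integral_congr_ae ?_
  filter_upwards [MemLp.coeFn_toLp h.2.1] with y hy
  rw [hy, real_inner_comm]

end Pool.Agent.Q62.PC
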