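import Pool.Agent.Q62.PD.D2

/-! Local compactness. -/

open MeasureTheory Set Filter Topology
open scoped ENNReal NNReal ContDiff

namespace Pool.Agent.Q62.PC

theorem enorm_rpow_eq {p : ℝ} (hp : 0 ≤ p) (a : ℝ) : ‖a‖ₑ ^ p = ENNReal.ofReal (|a| ^ p) := by
  rw [Real.enorm_eq_ofReal_abs, ENNReal.ofReal_rpow_of_nonneg (abs_nonneg a) hp]

theorem lint_eq {N : ℕ} {p : ℝ} (hp : 0 ≤ p) {f : E N → ℝ} {μ : Measure (E N)}
    (hf : Integrable (fun x => |f x| ^ p) μ) :
    ∫⁻ x, ‖f x‖ₑ ^ p ∂μ = ENNReal.ofReal (∫ x, |f x| ^ p ∂μ) := by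
  rw [ofReal_integral_eq_lintegral_ofReal hf (Eventually.of_forall fun x => by positivity)]
  refine lintegral_congr fun x => ?_
  rw [enorm_rpow_eq hp]

/-- the difference of a function in `D^{1,2}` and its translate -/
theorem diffD (N : ℕ) (hN : 3 ≤ N) (p : ℝ) (hp : 2 < p) (hp2 : p * ((N : ℝ) - 2) < 2 * N) :
    ∃ C : ℝ, 0 < C ∧ ∀ (w : E N → ℝ) (H : E N → E N), InD w H → ∀ (h : E N) (r : ℝ), ‖h‖ ≤ r →
      ∫⁻ x, ‖w (x + h) - w x‖ₑ ^ p ≤
        ENNReal.ofReal (C * r ^ sg N p * (∫ x, ‖H x‖ ^ 2) ^ (p / 2)) := by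
  obtain ⟨C, hC, HB⟩ := diff_bound N (by omega) p hp hp2
  refine ⟨C, hC, ?_⟩
  rintro w H ⟨w1, w2, φ, w3, w4, w5⟩ h r hr
  have hr0 : 0 ≤ r := (norm_nonneg _).trans hr
  have m1 : TendstoInMeasure volume φ atTop w :=
    tendstoInMeasure_of_tendsto_eLpNorm
      (by have := ps_ge hN; intro h0; rw [h0] at this; simp at this)
      (fun k => ((w3 k).memLp 2).1) w1.1 w4
  obtain ⟨ns, hns, hae⟩ := m1.exists_seq_tendsto_ae
  have hae2 : ∀ᵐ x ∂(volume : Measure (E N)),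
      Tendsto (fun i => φ (ns i) (x + h)) atTop (𝓝 (w (x + h))) :=
    (measurePreserving_add_right volume h).quasiMeasurePreserving.ae hae
  set f : ℕ → E N → ℝ≥0∞ := fun i x => ‖φ (ns i) (x + h) - φ (ns i) x‖ₑ ^ p with hf
  have hfm : ∀ i, Measurable (f i) := by
    intro i
    have hc : Continuous (φ (ns i)) := (w3 (ns i)).1.continuous
    have : Continuous fun x => φ (ns i) (x + h) - φ (ns i) x := by fun_prop
    exact this.measurable.enorm.pow_const p
  have hlim : ∀ᵐ x ∂(volume : Measure (E N)),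
      ‖w (x + h) - w x‖ₑ ^ p = liminf (fun i => f i x) atTop := by
    filter_upwards [hae, hae2] with x h1 h2
    have h3 : Tendsto (fun i => f i x) atTop (𝓝 (‖w (x + h) - w x‖ₑ ^ p)) := by
      have h4 := (h2.sub h1).enorm
      exact (ENNReal.continuous_rpow_const.tendsto _).comp h4
    exact h3.liminf_eq.symm
  rw [lintegral_congr_ae hlim]
  refine (lintegral_liminf_le hfm).trans ?_
  have hle : ∀ i, ∫⁻ x, f i x ≤
      ENNReal.ofReal (C * r ^ sg N p * (∫ x, ‖gradient (φ (ns i)) x‖ ^ 2) ^ (p / 2)) := by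
    intro i
    have h1 := HB _ _ (InH1.of_test (w3 (ns i))) h r hr
    rw [hf]
    simp only
    rw [lint_eq (by linarith) h1.1]
    exact ENNReal.ofReal_le_ofReal h1.2
  have hgr : Tendsto (fun i => ∫ x, ‖gradient (φ (ns i)) x‖ ^ 2) atTop (𝓝 (∫ x, ‖H x‖ ^ 2)) :=
    (sqlim (fun k => (w3 k).grad_memLp 2) w2 w5).comp hns.tendsto_atTop
  have hlim2 : Tendsto (fun i => ENNReal.ofReal
      (C * r ^ sg N p * (∫ x, ‖gradient (φ (ns i)) x‖ ^ 2) ^ (p / 2))) atTop
      (𝓝 (ENNReal.ofReal (C * r ^ sg N p * (∫ x, ‖H x‖ ^ 2) ^ (p / 2)))) := by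
    refine ENNReal.tendsto_ofReal (Tendsto.const_mul _ ?_)
    exact hgr.rpow_const (Or.inr (by linarith))
  rw [← hlim2.liminf_eq]
  exact liminf_le_liminf (Eventually.of_forall hle)

theorem holder_one {N : ℕ} {p : ℝ} (hp : 1 < p) {μ : Measure (E N)} {f : E N → ℝ≥0∞}
    (hf : AEMeasurable f μ) :
    (∫⁻ x, f x ∂μ) ^ p ≤ (μ univ) ^ (p - 1) * ∫⁻ x, f x ^ p ∂μ := by
  have hpq := Real.HolderConjugate.conjExponent hp
  have h1 := ENNReal.lintegral_mul_le_Lp_mul_Lq μ hpq hf (aemeasurable_const (b := (1 : ℝ≥0∞)))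
  have e1 : (∫⁻ x, (f * (fun _ => 1 : E N → ℝ≥0∞)) x ∂μ) = ∫⁻ x, f x ∂μ := by simp
  have e2 : (∫⁻ _, (1 : ℝ≥0∞) ^ p.conjExponent ∂μ) = μ univ := by simp
  rw [e1, e2] at h1
  have h2 := ENNReal.rpow_le_rpow h1 (show 0 ≤ p by linarith)
  refine h2.trans (le_of_eq ?_)
  rw [ENNReal.mul_rpow_of_nonneg _ _ (by linarith), ← ENNReal.rpow_mul, ← ENNReal.rpow_mul]
  have e3 : 1 / p * p = 1 := by field_simp
  have e4 : 1 / p.conjExponent * p = p - 1 := by
    unfold Real.conjExponent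
    have : p ≠ 0 := by linarith
    have : p - 1 ≠ 0 := by linarith
    field_simp
  rw [e3, e4, ENNReal.rpow_one, mul_comm]

/-- one step of the compactness argument -/
theorem step {N : ℕ} (hN : 3 ≤ N) {p : ℝ} (hp : 2 < p) {w : E N → ℝ} (hw : Measurable w)
    (hint : ∀ (x : E N) (r : ℝ), IntegrableOn w (Metric.ball x r) volume) {τ : ℝ} (hτ : 0 < τ)
    {D : ℝ≥0∞} (hD : ∀ h : E N, ‖h‖ ≤ τ → ∫⁻ x, ‖w (x + h) - w x‖ₑ ^ p ≤ D) (R : ℝ) :
    ∫⁻ x in Metric.ball 0 R, ‖w x‖ₑ ^ p ≤ 2 ^ (p - 1) * D +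
      2 ^ (p - 1) * (volume (Metric.ball (0 : E N) τ))⁻¹ ^ p *
        ∫⁻ x in Metric.ball 0 R, ‖∫ y in Metric.ball x τ, w y‖ₑ ^ p := by
  haveI : Nonempty (Fin N) := ⟨⟨0, by omega⟩⟩
  set B : Set (E N) := Metric.ball 0 τ with hB
  set m : ℝ≥0∞ := volume B with hm
  have hm0 : m ≠ 0 := (Metric.measure_ball_pos volume 0 hτ).ne'
  have hmt : m ≠ ⊤ := measure_ball_lt_top.ne
  have hpt : ∀ x, m * ‖w x‖ₑ ≤ (∫⁻ h in B, ‖w (x + h) - w x‖ₑ) +
      ‖∫ y in Metric.ball x τ, w y‖ₑ := by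
    intro x
    have i1 : IntegrableOn (fun h => w (x + h)) B volume := by
      have mp : MeasurePreserving (fun h : E N => x + h) volume volume :=
        measurePreserving_add_left volume x
      have me : MeasurableEmbedding (fun h : E N => x + h) := measurableEmbedding_addLeft x
      have h1 := (mp.integrableOn_comp_preimage me (f := w) (s := Metric.ball x τ)).2 (hint x τ)
      have h2 : (fun h : E N => x + h) ⁻¹' Metric.ball x τ = B := by
        ext h
        simp [hB, Metric.mem_ball, dist_eq_norm]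
      rw [h2] at h1
      exact h1
    have i2 : IntegrableOn (fun _ : E N => w x) B volume := integrableOn_const hmt
    have e1 : ∫ h in B, w (x + h) = ∫ y in Metric.ball x τ, w y := by
      rw [← shift_ball w x τ]
      refine integral_congr_ae (Eventually.of_forall fun h => ?_)
      simp only
      rw [add_comm]
    have e2 : m.toReal * w x = (∫ y in Metric.ball x τ, w y) - ∫ h in B, (w (x + h) - w x) := by
      rw [integral_sub i1 i2, e1, setIntegral_const, smul_eq_mul, Measure.real, ← hm]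
      ring
    have e3 : m * ‖w x‖ₑ = ‖m.toReal * w x‖ₑ := by
      rw [enorm_mul, Real.enorm_eq_ofReal ENNReal.toReal_nonneg, ENNReal.ofReal_toReal hmt]
    rw [e3, e2, add_comm]
    refine (enorm_sub_le).trans ?_
    gcongr
    exact enorm_integral_le_lintegral_enorm _
  have hpt2 : ∀ x, m ^ p * ‖w x‖ₑ ^ p ≤ 2 ^ (p - 1) *
      (m ^ (p - 1) * (∫⁻ h in B, ‖w (x + h) - w x‖ₑ ^ p) +
        ‖∫ y in Metric.ball x τ, w y‖ₑ ^ p) := by
    intro x
    have h1 := ENNReal.rpow_le_rpow (hpt x) (show 0 ≤ p by linarith)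
    rw [ENNReal.mul_rpow_of_nonneg _ _ (by linarith)] at h1
    refine h1.trans ((ENNReal.rpow_add_le_mul_rpow_add_rpow _ _ (by linarith)).trans ?_)
    gcongr
    have hme : Measurable fun h => ‖w (x + h) - w x‖ₑ :=
      ((hw.comp (measurable_const_add x)).sub measurable_const).enorm
    have h2 := holder_one (p := p) (by linarith) (μ := volume.restrict B) hme.aemeasurable
    rw [Measure.restrict_apply_univ] at h2
    exact h2
  have hsm : Measurable (Function.uncurry fun x h : E N => ‖w (x + h) - w x‖ₑ ^ p) := by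
    have h1 : Measurable fun z : E N × E N => w (z.1 + z.2) :=
      hw.comp (measurable_fst.add measurable_snd)
    have h2 : Measurable fun z : E N × E N => w z.1 := hw.comp measurable_fst
    exact (h1.sub h2).enorm.pow_const p
  have hsw : ∫⁻ x in Metric.ball 0 R, ∫⁻ h in B, ‖w (x + h) - w x‖ₑ ^ p ≤ m * D := by
    rw [lintegral_lintegral_swap hsm.aemeasurable]
    have h1 : ∫⁻ h in B, ∫⁻ x in Metric.ball 0 R, ‖w (x + h) - w x‖ₑ ^ p ≤ ∫⁻ _ in B, D := by
      refine setLIntegral_mono' Metric.isOpen_ball.measurableSet fun h hh => ?_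
      refine (setLIntegral_le_lintegral _ _).trans (hD h ?_)
      rw [hB, mem_ball_zero_iff] at hh
      exact hh.le
    refine h1.trans (le_of_eq ?_)
    rw [setLIntegral_const, ← hm, mul_comm]
  have hF1 : Measurable fun x => ∫⁻ h in B, ‖w (x + h) - w x‖ₑ ^ p :=
    hsm.lintegral_prod_right'
  have hmain : m ^ p * ∫⁻ x in Metric.ball 0 R, ‖w x‖ₑ ^ p ≤ 2 ^ (p - 1) *
      (m ^ (p - 1) * (m * D) + ∫⁻ x in Metric.ball 0 R, ‖∫ y in Metric.ball x τ, w y‖ₑ ^ p) := by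
    rw [← lintegral_const_mul _ (hw.enorm.pow_const p)]
    refine (lintegral_mono hpt2).trans ?_
    rw [lintegral_const_mul' _ _ (ENNReal.rpow_ne_top_of_nonneg (by linarith) (by norm_num)),
      lintegral_add_left (hF1.const_mul _), lintegral_const_mul _ hF1]
    gcongr
  have hmp : m ^ p ≠ 0 := by
    rw [ne_eq, ENNReal.rpow_eq_zero_iff]
    push Not
    exact ⟨fun h => absurd h hm0, fun h => absurd h hmt⟩
  have hmpt : m ^ p ≠ ⊤ := ENNReal.rpow_ne_top_of_nonneg (by linarith) hmt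
  have e5 : m ^ (p - 1) * (m * D) = m ^ p * D := by
    rw [← mul_assoc]
    congr 1
    calc m ^ (p - 1) * m = m ^ (p - 1) * m ^ (1 : ℝ) := by rw [ENNReal.rpow_one]
      _ = m ^ (p - 1 + 1) := (ENNReal.rpow_add _ _ hm0 hmt).symm
      _ = m ^ p := by congr 1; ring
  rw [e5] at hmain
  have h6 : ∫⁻ x in Metric.ball 0 R, ‖w x‖ₑ ^ p =
      (m ^ p)⁻¹ * (m ^ p * ∫⁻ x in Metric.ball 0 R, ‖w x‖ₑ ^ p) := by
    rw [← mul_assoc, ENNReal.inv_mul_cancel hmp hmpt, one_mul]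
  rw [h6]
  calc (m ^ p)⁻¹ * (m ^ p * ∫⁻ x in Metric.ball 0 R, ‖w x‖ₑ ^ p)
      ≤ (m ^ p)⁻¹ * (2 ^ (p - 1) * (m ^ p * D +
        ∫⁻ x in Metric.ball 0 R, ‖∫ y in Metric.ball x τ, w y‖ₑ ^ p)) := by gcongr
    _ = ((m ^ p)⁻¹ * m ^ p) * (2 ^ (p - 1) * D) + 2 ^ (p - 1) * (m ^ p)⁻¹ *
        ∫⁻ x in Metric.ball 0 R, ‖∫ y in Metric.ball x τ, w y‖ₑ ^ p := by ring
    _ = _ := by
      rw [ENNReal.inv_mul_cancel hmp hmpt, one_mul, ENNReal.inv_rpow]

theorem loc_compact (N : ℕ) (hN : 3 ≤ N) (p : ℝ) (hp : 2 < p) (hp2 : p * ((N : ℝ) - 2) < 2 * N)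
    {w : ℕ → E N → ℝ} {H : ℕ → E N → E N} (h : ∀ n, InD (w n) (H n)) {M : ℝ}
    (hM : ∀ n, ∫ x, ‖H n x‖ ^ 2 ≤ M)
    (havg : ∀ (x : E N) (r : ℝ), Tendsto (fun n => ∫ y in Metric.ball x r, w n y) atTop (𝓝 0))
    (R : ℝ) :
    Tendsto (fun n => ∫⁻ x in Metric.ball 0 R, ‖w n x‖ₑ ^ p) atTop (𝓝 0) := by
  obtain ⟨C, hC, HD⟩ := diffD N hN p hp hp2
  have hs := sg_pos hp2
  have hM0 : 0 ≤ M := (integral_nonneg fun x => sq_nonneg _).trans (hM 0)
  -- measurable representatives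
  set w' : ℕ → E N → ℝ := fun n => (h n).1.1.mk (w n) with hw'
  have hw'm : ∀ n, Measurable (w' n) := fun n => (h n).1.1.stronglyMeasurable_mk.measurable
  have hww : ∀ n, w n =ᵐ[volume] w' n := fun n => (h n).1.1.ae_eq_mk
  have h' : ∀ n, InD (w' n) (H n) := fun n => (h n).congr (hww n) (ae_eq_refl _)
  have e1 : ∀ n, ∫⁻ x in Metric.ball 0 R, ‖w n x‖ₑ ^ p =
      ∫⁻ x in Metric.ball 0 R, ‖w' n x‖ₑ ^ p := by
    intro n
    refine lintegral_congr_ae (ae_restrict_of_ae ?_)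
    filter_upwards [hww n] with x hx
    rw [hx]
  have e2 : ∀ n (x : E N) r, ∫ y in Metric.ball x r, w n y = ∫ y in Metric.ball x r, w' n y :=
    fun n x r => integral_congr_ae (ae_restrict_of_ae (hww n))
  simp only [e1]
  simp only [e2] at havg
  rw [ENNReal.tendsto_nhds_zero]
  intro e he
  -- choice of τ
  have hτlim : Tendsto (fun τ : ℝ => (2 : ℝ≥0∞) ^ (p - 1) *
      ENNReal.ofReal (C * τ ^ sg N p * M ^ (p / 2))) (𝓝[>] 0) (𝓝 0) := by
    have h1 : Tendsto (fun τ : ℝ => C * τ ^ sg N p * M ^ (p / 2)) (𝓝[>] 0) (𝓝 0) := by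
      have h2 : Tendsto (fun τ : ℝ => τ ^ sg N p) (𝓝[>] 0) (𝓝 0) := by
        have h3 := (Real.continuousAt_rpow_const 0 (sg N p) (Or.inr hs.le)).tendsto
        rw [Real.zero_rpow hs.ne'] at h3
        exact h3.mono_left nhdsWithin_le_nhds
      have := (h2.const_mul C).mul_const (M ^ (p / 2))
      simpa using this
    have h3 := ENNReal.Tendsto.const_mul (a := (2 : ℝ≥0∞) ^ (p - 1)) (ENNReal.tendsto_ofReal h1)
      (Or.inr (ENNReal.rpow_ne_top_of_nonneg (by linarith) (by norm_num)))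
    rwa [ENNReal.ofReal_zero, mul_zero] at h3
  have he2 : (0 : ℝ≥0∞) < e / 2 := ENNReal.half_pos he.ne'
  obtain ⟨τ, hτ1, hτ2⟩ := ((hτlim.eventually (gt_mem_nhds he2)).and self_mem_nhdsWithin).exists
  have hτ : 0 < τ := hτ2
  set D : ℝ≥0∞ := ENNReal.ofReal (C * τ ^ sg N p * M ^ (p / 2)) with hD
  have hDn : ∀ n, ∀ k : E N, ‖k‖ ≤ τ → ∫⁻ x, ‖w' n (x + k) - w' n x‖ₑ ^ p ≤ D := by
    intro n k hk
    refine (HD _ _ (h' n) k τ hk).trans (ENNReal.ofReal_le_ofReal ?_)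
    refine mul_le_mul_of_nonneg_left ?_ (by positivity)
    exact Real.rpow_le_rpow (integral_nonneg fun x => sq_nonneg _) (hM n) (by linarith)
  have hst := fun n => step hN hp (hw'm n) (fun x r => (h' n).integrableOn hN x r) hτ (hDn n) R
  obtain ⟨K, hK0, hK⟩ := avg_bound hN τ
  have hnorm : ∀ n, (eLpNorm (H n) 2 volume).toReal ≤ Real.sqrt M := by
    intro n
    refine Real.le_sqrt_of_sq_le ?_
    rw [← int_sq (h n).2.1]; exact hM n
  have hdom : Tendsto (fun n => ∫⁻ x in Metric.ball (0 : E N) R,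
      ‖∫ y in Metric.ball x τ, w' n y‖ₑ ^ p) atTop (𝓝 0) := by
    have hb := tendsto_lintegral_of_dominated_convergence
      (μ := (volume : Measure (E N)).restrict (Metric.ball 0 R))
      (F := fun n x => ‖∫ y in Metric.ball x τ, w' n y‖ₑ ^ p) (f := fun _ => 0)
      (bound := fun _ => ENNReal.ofReal (K * Real.sqrt M) ^ p) ?_ ?_ ?_ ?_
    · simpa using hb
    · intro n
      have h1 : StronglyMeasurable (fun x : E N => ∫ y in Metric.ball 0 τ, w' n (y + x)) := by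
        have h2 : StronglyMeasurable (fun z : E N × E N => w' n (z.2 + z.1)) :=
          ((hw'm n).comp (measurable_snd.add measurable_fst)).stronglyMeasurable
        exact h2.integral_prod_right'
      have h3 : (fun x : E N => ∫ y in Metric.ball x τ, w' n y) =
          fun x : E N => ∫ y in Metric.ball 0 τ, w' n (y + x) := by
        funext x
        rw [shift_ball]
      have h4 : Measurable (fun x : E N => ∫ y in Metric.ball x τ, w' n y) := by
        rw [h3]; exact h1.measurable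
      exact h4.enorm.pow_const p
    · intro n
      refine Eventually.of_forall fun x => ?_
      refine ENNReal.rpow_le_rpow ?_ (by linarith)
      rw [Real.enorm_eq_ofReal_abs]
      refine ENNReal.ofReal_le_ofReal ((hK _ _ (h' n) x).trans ?_)
      exact mul_le_mul_of_nonneg_left (hnorm n) hK0
    · rw [setLIntegral_const]
      exact ENNReal.mul_ne_top (ENNReal.rpow_ne_top_of_nonneg (by linarith) ENNReal.ofReal_ne_top)
        measure_ball_lt_top.ne
    · refine Eventually.of_forall fun x => ?_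
      have h1 := (havg x τ).enorm
      have h2 := ((ENNReal.continuous_rpow_const (y := p)).tendsto _).comp h1
      simp only [enorm_zero, Function.comp_def] at h2
      rwa [ENNReal.zero_rpow_of_pos (by linarith)] at h2
  have hc : (2 : ℝ≥0∞) ^ (p - 1) * (volume (Metric.ball (0 : E N) τ))⁻¹ ^ p ≠ ⊤ := by
    haveI : Nonempty (Fin N) := ⟨⟨0, by omega⟩⟩
    refine ENNReal.mul_ne_top (ENNReal.rpow_ne_top_of_nonneg (by linarith) (by norm_num))
      (ENNReal.rpow_ne_top_of_nonneg (by linarith) ?_)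
    exact ENNReal.inv_ne_top.2 (Metric.measure_ball_pos volume 0 hτ).ne'
  have hlim3 := ENNReal.Tendsto.const_mul hdom (Or.inr hc)
  rw [mul_zero] at hlim3
  filter_upwards [hlim3.eventually (gt_mem_nhds he2)] with n hn
  refine (hst n).trans ?_
  calc _ ≤ e / 2 + e / 2 := add_le_add hτ1.le hn.le
    _ = e := ENNReal.add_halves e

/-- averages converge along weakly convergent sequences -/
theorem avg_lim {N : ℕ} (hN : 3 ≤ N) {w : ℕ → E N → ℝ} {G : ℕ → E N → E N}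
    (h : ∀ n, InD (w n) (G n)) {w0 : E N → ℝ} {G0 : E N → E N} (h0 : InD w0 G0)
    (hw : WeakD G G0) (x : E N) (r : ℝ) :
    Tendsto (fun n => ∫ y in Metric.ball x r, (w n y - w0 y)) atTop (𝓝 0) := by
  obtain ⟨W, H, hWH, hR⟩ := riesz hN x r
  have h1 := hw W H hWH
  have e : ∀ n, ∫ y in Metric.ball x r, (w n y - w0 y) =
      (∫ y, inner ℝ (G n y) (H y)) - ∫ y, inner ℝ (G0 y) (H y) := by
    intro n
    rw [← hR _ _ (h n), ← hR _ _ h0]
    exact integral_sub ((h n).integrableOn hN x r) (h0.integrableOn hN x r)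
  simp only [e]
  have h2 := h1.sub_const (∫ y, inner ℝ (G0 y) (H y))
  rwa [sub_self] at h2

theorem grad_sub_bound {N : ℕ} {G H : E N → E N} (hG : MemLp G 2 (volume : Measure (E N)))
    (hH : MemLp H 2 (volume : Measure (E N))) :
    ∫ x, ‖G x - H x‖ ^ 2 ≤ 2 * (∫ x, ‖G x‖ ^ 2) + 2 * ∫ x, ‖H x‖ ^ 2 := by
  have i1 : Integrable (fun x => ‖G x‖ ^ 2) (volume : Measure (E N)) :=
    hG.integrable_norm_pow (by norm_num)
  have i2 : Integrable (fun x => ‖H x‖ ^ 2) (volume : Measure (E N)) :=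
    hH.integrable_norm_pow (by norm_num)
  have i3 : Integrable (fun x => ‖G x - H x‖ ^ 2) (volume : Measure (E N)) :=
    (hG.sub hH).integrable_norm_pow (by norm_num)
  rw [← integral_const_mul, ← integral_const_mul,
    ← integral_add (i1.const_mul 2) (i2.const_mul 2)]
  refine integral_mono i3 ((i1.const_mul 2).add (i2.const_mul 2)) fun x => ?_
  have h1 := norm_sub_le (G x) (H x)
  have h2 : ‖G x - H x‖ ^ 2 ≤ (‖G x‖ + ‖H x‖) ^ 2 := pow_le_pow_left₀ (norm_nonneg _) h1 2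
  simp only
  nlinarith [sq_nonneg (‖G x‖ - ‖H x‖)]

/-- weak convergence in `D^{1,2}` implies convergence in `L^p` on balls -/
theorem weak_loc (N : ℕ) (hN : 3 ≤ N) (p : ℝ) (hp : 2 < p) (hp2 : p * ((N : ℝ) - 2) < 2 * N)
    {w : ℕ → E N → ℝ} {G : ℕ → E N → E N} (h : ∀ n, InD (w n) (G n)) {M : ℝ}
    (hM : ∀ n, ∫ x, ‖G n x‖ ^ 2 ≤ M) {w0 : E N → ℝ} {G0 : E N → E N} (h0 : InD w0 G0)
    (hw : WeakD G G0) (R : ℝ) :
    Tendsto (fun n => ∫⁻ x in Metric.ball 0 R, ‖w n x - w0 x‖ₑ ^ p) atTop (𝓝 0) := by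
  refine loc_compact N hN p hp hp2 (w := fun n x => w n x - w0 x) (H := fun n x => G n x - G0 x)
    (fun n => (h n).sub hN h0) (M := 2 * M + 2 * ∫ x, ‖G0 x‖ ^ 2) (fun n => ?_)
    (fun x r => avg_lim hN h h0 hw x r) R
  refine (grad_sub_bound (h n).2.1 h0.2.1).trans ?_
  have := hM n
  linarith

end Pool.Agent.Q62.PC
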