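import Pool.Agent.Q62.PD.D3

/-! Scaling, and the nonzero weak limit. -/

open MeasureTheory Set Filter Topology
open scoped ENNReal NNReal ContDiff

namespace Pool.Agent.Q62.PC

theorem int_aff {N : ℕ} (f : E N → ℝ) {c : ℝ} (hc : 0 < c) (b : E N) :
    ∫ x, f (c • x + b) = (c ^ N)⁻¹ * ∫ x, f x := by
  have h := Measure.integral_comp_smul (volume : Measure (E N)) (fun x => f (x + b)) c
  rw [h, integral_add_right_eq_self f b, finrank_euclideanSpace, Fintype.card_fin, smul_eq_mul,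
    abs_of_pos (by positivity)]

theorem int_aff_set {N : ℕ} (f : E N → ℝ) {c : ℝ} (hc : 0 < c) (b : E N) {S : Set (E N)}
    (hS : MeasurableSet S) :
    ∫ x in (fun x => c • x + b) ⁻¹' S, f (c • x + b) = (c ^ N)⁻¹ * ∫ x in S, f x := by
  have hm : Measurable fun x : E N => c • x + b := by fun_prop
  rw [← integral_indicator (hm hS), ← integral_indicator hS, ← int_aff _ hc b]
  refine integral_congr_ae (Eventually.of_forall fun x => ?_)
  simp only
  by_cases hx : c • x + b ∈ S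
  · rw [indicator_of_mem hx, indicator_of_mem (show x ∈ (fun x => c • x + b) ⁻¹' S from hx)]
  · rw [indicator_of_notMem hx, indicator_of_notMem (show x ∉ (fun x => c • x + b) ⁻¹' S from hx)]

theorem map_aff {N : ℕ} {c : ℝ} (hc : 0 < c) (b : E N) :
    Measure.map (fun x : E N => c • x + b) volume = ENNReal.ofReal ((c ^ N)⁻¹) •
      (volume : Measure (E N)) := by
  have h1 : (fun x : E N => c • x + b) = (fun x : E N => x + b) ∘ fun x : E N => c • x := rfl
  rw [h1, ← Measure.map_map (measurable_add_const b) (measurable_const_smul c),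
    Measure.map_addHaar_smul volume hc.ne', Measure.map_smul,
    (measurePreserving_add_right volume b).map_eq, finrank_euclideanSpace, Fintype.card_fin,
    abs_of_pos (by positivity)]

theorem eLpNorm_aff {N : ℕ} {F : Type*} [NormedAddCommGroup F] {f : E N → F} {c : ℝ} (hc : 0 < c)
    (b : E N) (hf : AEStronglyMeasurable f (volume : Measure (E N))) :
    eLpNorm (fun x => f (c • x + b)) 2 volume =
      ENNReal.ofReal ((c ^ N)⁻¹) ^ (1 / 2 : ℝ) * eLpNorm f 2 volume := by
  have hm : Measurable fun x : E N => c • x + b := by fun_prop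
  have h0 : ENNReal.ofReal ((c ^ N)⁻¹) ≠ 0 := by
    rw [ne_eq, ENNReal.ofReal_eq_zero, not_le]; positivity
  have hf' : AEStronglyMeasurable f (Measure.map (fun x : E N => c • x + b) volume) := by
    rw [map_aff hc]
    exact hf.smul_measure _
  have h1 := eLpNorm_map_measure (p := 2) hf' hm.aemeasurable
  have h2 : (f ∘ fun x : E N => c • x + b) = fun x => f (c • x + b) := rfl
  rw [← h2, ← h1, map_aff hc, eLpNorm_smul_measure_of_ne_top (by norm_num)]
  simp

theorem memLp_aff {N : ℕ} {F : Type*} [NormedAddCommGroup F] {f : E N → F} {c : ℝ} (hc : 0 < c)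
    (b : E N) (hf : MemLp f 2 (volume : Measure (E N))) :
    MemLp (fun x => f (c • x + b)) 2 (volume : Measure (E N)) := by
  have hm : Measurable fun x : E N => c • x + b := by fun_prop
  have hf' : AEStronglyMeasurable f (Measure.map (fun x : E N => c • x + b) volume) := by
    rw [map_aff hc]
    exact hf.1.smul_measure _
  refine ⟨hf'.comp_measurable hm, ?_⟩
  rw [eLpNorm_aff hc b hf.1]
  exact ENNReal.mul_lt_top (ENNReal.rpow_lt_top_of_nonneg (by norm_num) ENNReal.ofReal_ne_top) hf.2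

theorem grad_aff {N : ℕ} {φ : E N → ℝ} (hφ : ContDiff ℝ 1 φ) (c : ℝ) (b x : E N) :
    gradient (fun x => φ (c • x + b)) x = c • gradient φ (c • x + b) := by
  have h0 : HasFDerivAt φ (fderiv ℝ φ (c • x + b)) (c • x + b) :=
    ((hφ.differentiable (by norm_num)) _).hasFDerivAt
  have h1 : HasFDerivAt (fun x : E N => c • x + b) (c • ContinuousLinearMap.id ℝ (E N)) x :=
    ((hasFDerivAt_id x).const_smul c).add_const b
  have h2 : HasFDerivAt (fun x => φ (c • x + b)) ((fderiv ℝ φ (c • x + b)).comp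
      (c • ContinuousLinearMap.id ℝ (E N))) x :=
    HasFDerivAt.comp (g := φ) (f := fun x : E N => c • x + b) x h0 h1
  simp only [gradient]
  rw [h2.fderiv]
  simp

theorem InH1.aff {N : ℕ} {u : E N → ℝ} {g : E N → E N} (hu : InH1 u g) {c : ℝ} (hc : 0 < c)
    (b : E N) : InH1 (fun x => u (c • x + b)) (fun x => c • g (c • x + b)) := by
  obtain ⟨u1, u2, φ, u3, u4, u5⟩ := hu
  have hT : ∀ k, IsTest fun x => φ k (c • x + b) := by
    intro k
    refine ⟨?_, ?_⟩
    · have : ContDiff ℝ ∞ fun x : E N => c • x + b := by fun_prop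
      exact (u3 k).1.comp this
    · have h1 := (u3 k).2.comp_homeomorph
        ((Homeomorph.smulOfNeZero c hc.ne').trans (Homeomorph.addRight b))
      exact h1
  refine ⟨memLp_aff hc b u1, (memLp_aff hc b u2).const_smul c, fun k x => φ k (c • x + b), hT,
    ?_, ?_⟩
  · have e : ∀ k, eLpNorm ((fun x => φ k (c • x + b)) - fun x => u (c • x + b)) 2 volume =
        ENNReal.ofReal ((c ^ N)⁻¹) ^ (1 / 2 : ℝ) * eLpNorm (φ k - u) 2 volume :=
      fun k => eLpNorm_aff (f := φ k - u) hc b (((u3 k).memLp 2).sub u1).1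
    simp only [e]
    have := ENNReal.Tendsto.const_mul (a := ENNReal.ofReal ((c ^ N)⁻¹) ^ (1 / 2 : ℝ)) u4
      (Or.inr (ENNReal.rpow_ne_top_of_nonneg (by norm_num) ENNReal.ofReal_ne_top))
    rwa [mul_zero] at this
  · have e0 : ∀ k, gradient (fun x => φ k (c • x + b)) - (fun x => c • g (c • x + b)) =
        c • fun x => (gradient (φ k) - g) (c • x + b) := by
      intro k
      funext x
      simp only [Pi.sub_apply, Pi.smul_apply]
      rw [grad_aff (u3 k).c1, smul_sub]
    have e : ∀ k, eLpNorm (gradient (fun x => φ k (c • x + b)) - fun x => c • g (c • x + b)) 2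
        volume = ‖c‖ₑ * (ENNReal.ofReal ((c ^ N)⁻¹) ^ (1 / 2 : ℝ) *
          eLpNorm (gradient (φ k) - g) 2 volume) := by
      intro k
      rw [e0, eLpNorm_const_smul,
        eLpNorm_aff (f := gradient (φ k) - g) hc b (((u3 k).grad_memLp 2).sub u2).1]
    simp only [e]
    have h1 := ENNReal.Tendsto.const_mul (a := ENNReal.ofReal ((c ^ N)⁻¹) ^ (1 / 2 : ℝ)) u5
      (Or.inr (ENNReal.rpow_ne_top_of_nonneg (by norm_num) ENNReal.ofReal_ne_top))
    have h2 := ENNReal.Tendsto.const_mul (a := ‖c‖ₑ) h1 (Or.inr enorm_ne_top)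
    simpa using h2

theorem resc_InH1 {N : ℕ} {p ε : ℝ} (hε : 0 < ε) {u : E N → ℝ} {g : E N → E N} (hu : InH1 u g)
    (k : Fin N → ℤ) : InH1 (resc p ε k u) (rescG p ε k g) := by
  have h1 := (hu.aff hε (pt k)).smul (ε ^ (2 / (p - 2)))
  have e2 : (fun x => ε ^ (2 / (p - 2)) • ε • g (ε • x + pt k)) = rescG p ε k g := by
    funext x
    unfold rescG
    rw [smul_smul, Real.rpow_add hε, Real.rpow_one]
  rw [e2] at h1
  exact h1

/-- the exponent `κ = 2p/(p-2) - N` -/
noncomputable def kap (N : ℕ) (p : ℝ) : ℝ := 2 * p / (p - 2) - N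

theorem kap_pos {N : ℕ} {p : ℝ} (hp : 2 < p) (hp2 : p * ((N : ℝ) - 2) < 2 * N) : 0 < kap N p := by
  unfold kap
  rw [sub_pos, lt_div_iff₀ (by linarith)]
  linarith

theorem kap_sg {N : ℕ} {p : ℝ} (hp : 2 < p) : kap N p * ((p - 2) / 2) = sg N p := by
  unfold kap sg
  have : p - 2 ≠ 0 := by linarith
  field_simp
  ring

theorem resc_mass {N : ℕ} {p ε : ℝ} (hp : 2 < p) (hε : 0 < ε) (u : E N → ℝ) (k : Fin N → ℤ)
    {S : Set (E N)} (hS : MeasurableSet S) :
    ∫ x in (fun x => ε • x + pt k) ⁻¹' S, |resc p ε k u x| ^ p =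
      ε ^ kap N p * ∫ x in S, |u x| ^ p := by
  have h1 := int_aff_set (fun y => |u y| ^ p) hε (pt k) hS
  have e : ∀ x, |resc p ε k u x| ^ p = ε ^ (2 * p / (p - 2)) * |u (ε • x + pt k)| ^ p := by
    intro x
    unfold resc
    have h0 : 0 < ε ^ (2 / (p - 2)) := Real.rpow_pos_of_pos hε _
    rw [abs_mul, abs_of_pos h0, Real.mul_rpow h0.le (abs_nonneg _), ← Real.rpow_mul hε.le]
    congr 2
    have : p - 2 ≠ 0 := by linarith
    field_simp
  simp only [e]
  rw [integral_const_mul, h1, ← mul_assoc]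
  congr 1
  unfold kap
  rw [Real.rpow_sub hε, Real.rpow_natCast]
  rfl

theorem resc_grad {N : ℕ} {p ε : ℝ} (hp : 2 < p) (hε : 0 < ε) (g : E N → E N) (k : Fin N → ℤ) :
    ∫ x, ‖rescG p ε k g x‖ ^ 2 = ε ^ kap N p * ∫ x, ‖g x‖ ^ 2 := by
  have h1 := int_aff (fun y => ‖g y‖ ^ 2) hε (pt k)
  have e : ∀ x, ‖rescG p ε k g x‖ ^ 2 = ε ^ (2 * p / (p - 2)) * ‖g (ε • x + pt k)‖ ^ 2 := by
    intro x
    unfold rescG
    have h0 : 0 < ε ^ (2 / (p - 2) + 1) := Real.rpow_pos_of_pos hε _
    rw [norm_smul, Real.norm_eq_abs, abs_of_pos h0, mul_pow, ← Real.rpow_natCast (ε ^ _),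
      ← Real.rpow_mul hε.le]
    congr 2
    have : p - 2 ≠ 0 := by linarith
    field_simp
    push_cast
    ring
  simp only [e]
  rw [integral_const_mul, h1, ← mul_assoc]
  congr 1
  unfold kap
  rw [Real.rpow_sub hε, Real.rpow_natCast]
  rfl

theorem resc_sq {N : ℕ} {p ε : ℝ} (hp : 2 < p) (hε : 0 < ε) (u : E N → ℝ) (k : Fin N → ℤ) :
    ε ^ 2 * ∫ x, (resc p ε k u x) ^ 2 = ε ^ kap N p * ∫ x, (u x) ^ 2 := by
  have h1 := int_aff (fun y => (u y) ^ 2) hε (pt k)
  have e : ∀ x, (resc p ε k u x) ^ 2 = ε ^ (4 / (p - 2)) * (u (ε • x + pt k)) ^ 2 := by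
    intro x
    unfold resc
    rw [mul_pow, ← Real.rpow_natCast (ε ^ _), ← Real.rpow_mul hε.le]
    congr 2
    push_cast
    ring
  simp only [e]
  rw [integral_const_mul, h1, ← mul_assoc, ← mul_assoc]
  congr 1
  have e2 : kap N p = 2 + 4 / (p - 2) - N := by
    unfold kap
    have : p - 2 ≠ 0 := by linarith
    field_simp
    ring
  rw [e2, Real.rpow_sub hε, Real.rpow_natCast, Real.rpow_add hε]
  norm_num
  rfl

/-- the energy is of the exact order `ε^(-κ)` -/
theorem energy_order (N : ℕ) (hN : 2 ≤ N) (p : ℝ) (hp : 2 < p) (hp2 : p * ((N : ℝ) - 2) < 2 * N) :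
    ∃ c C : ℝ, 0 < c ∧ 0 < C ∧ ∀ ε : ℝ, 0 < ε → ε ≤ 1 / 16 → ∀ (u : E N → ℝ) (g : E N → E N),
      IsLeast p ε u g → c ≤ ε ^ kap N p * ∫ x, dens u g x ∧
        ε ^ kap N p * (∫ x, dens u g x) ≤ C := by
  obtain ⟨c, hc, HL⟩ := lower N hN p hp hp2
  obtain ⟨C, hC, HU⟩ := upper N p hp
  set q : ℝ := (p - 2) / 2 with hq
  have hq0 : 0 < q := by rw [hq]; linarith
  refine ⟨c ^ (1 / q), C ^ (1 / q), by positivity, by positivity, ?_⟩
  intro ε hε hε1 u g hu
  have h1 := HL ε hε (by linarith) u g hu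
  have h2 := HU ε hε (by linarith) u g hu
  have hA : 0 ≤ ∫ x, dens u g x := integral_nonneg (dens_nonneg u g)
  set A : ℝ := ∫ x, dens u g x with hAdef
  have e : ε ^ sg N p * A ^ q = (ε ^ kap N p * A) ^ q := by
    rw [Real.mul_rpow (by positivity) hA, ← Real.rpow_mul hε.le, kap_sg hp]
  rw [e] at h1 h2
  have hB : 0 ≤ ε ^ kap N p * A := by positivity
  have e2 : ((ε ^ kap N p * A) ^ q) ^ (1 / q) = ε ^ kap N p * A := by
    rw [← Real.rpow_mul hB]
    have : q * (1 / q) = 1 := by field_simp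
    rw [this, Real.rpow_one]
  constructor
  · rw [← e2]
    exact Real.rpow_le_rpow hc.le h1 (by positivity)
  · rw [← e2]
    exact Real.rpow_le_rpow (by positivity) h2 (by positivity)

theorem core_mass {N : ℕ} {p ε δ : ℝ} (hδ : ε + δ ≤ 1) {u : E N → ℝ} {g : E N → E N}
    (hu : IsLeast p ε u g) (hup : Integrable (fun x => |u x| ^ p) (volume : Measure (E N)))
    (z : Fin N → ℤ) :
    (∫ x, dens u g x) ≤ (∫ x in Metric.ball (pt z : E N) ε, |u x| ^ p) +
      ∫ x in (Metric.ball (pt z : E N) δ)ᶜ, |u x| ^ p := by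
  have mB : ∀ r, MeasurableSet (Metric.ball (pt z : E N) r) :=
    fun _ => Metric.isOpen_ball.measurableSet
  rw [hu.2.1.2.2, ← integral_indicator (mB ε), ← integral_indicator (mB δ).compl,
    ← integral_add (hup.indicator (mB ε)) (hup.indicator (mB δ).compl)]
  refine integral_mono (Q_int ε hup) ((hup.indicator (mB ε)).add (hup.indicator (mB δ).compl))
    fun x => ?_
  have hn : 0 ≤ |u x| ^ p := by positivity
  have n1 : 0 ≤ (Metric.ball (pt z : E N) ε).indicator (fun x => |u x| ^ p) x :=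
    indicator_nonneg (fun x _ => by positivity) x
  have n2 : 0 ≤ (Metric.ball (pt z : E N) δ)ᶜ.indicator (fun x => |u x| ^ p) x :=
    indicator_nonneg (fun x _ => by positivity) x
  simp only
  by_cases hx : x ∈ Metric.ball (pt z : E N) δ
  · by_cases hc : x ∈ core N ε
    · have := core_near hδ hx hc
      rw [indicator_of_mem this, Q_of_mem hc]
      linarith
    · rw [Q_of_notMem hc]
      linarith
  · have hx' : x ∈ (Metric.ball (pt z : E N) δ)ᶜ := hx
    rw [indicator_of_mem hx']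
    have h2 := le_abs_self (Q ε x)
    rw [Q_abs] at h2
    nlinarith

theorem preimage_ball {N : ℕ} {ε : ℝ} (hε : 0 < ε) (b : E N) (R : ℝ) :
    (fun x => ε • x + b) ⁻¹' Metric.ball b (ε * R) = Metric.ball (0 : E N) R := by
  ext x
  simp only [mem_preimage, Metric.mem_ball, dist_eq_norm, add_sub_cancel_right, sub_zero]
  rw [norm_smul, Real.norm_eq_abs, abs_of_pos hε]
  exact mul_lt_mul_iff_right₀ hε

end Pool.Agent.Q62.PC
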