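import Pool.Agent.Q62.PD.D4

/-! The nonzero weak limit. -/

open MeasureTheory Set Filter Topology
open scoped ENNReal NNReal ContDiff

namespace Pool.Agent.Q62.PC

section

variable {N : ℕ} {p : ℝ} {ε : ℕ → ℝ} {u : ℕ → E N → ℝ} {g : ℕ → E N → E N} {y : ℕ → Fin N → ℤ}

/-- almost all the energy is in the ball of radius `1/4` around `y n` -/
def Near (ε : ℕ → ℝ) (u : ℕ → E N → ℝ) (g : ℕ → E N → E N) (y : ℕ → Fin N → ℤ) : Prop :=
  (∀ n, 0 < ε n) ∧ Tendsto ε atTop (𝓝 0) ∧ ∀ η : ℝ, 0 < η → ∀ᶠ n in atTop,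
    (1 - η) * (∫ x, dens (u n) (g n) x) ≤ ∫ x in Metric.ball (pt (y n)) (1 / 4), dens (u n) (g n) x

theorem exists_near (hN : 2 ≤ N) (hp : 2 < p) (hp2 : p * ((N : ℝ) - 2) < 2 * N)
    (hε : ∀ n, 0 < ε n) (hε0 : Tendsto ε atTop (𝓝 0)) (hu : ∀ n, IsLeast p (ε n) (u n) (g n)) :
    ∃ y : ℕ → Fin N → ℤ, Near ε u g y := by
  obtain ⟨y, hy⟩ := main N hN p hp hp2 ε hε hε0 u g hu
  refine ⟨y, hε, hε0, fun η hη => ?_⟩
  have h := (hy (1 / 4) (by norm_num) (by norm_num)).1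
  have h1 : 1 - η < 1 := by linarith
  filter_upwards [h.eventually (lt_mem_nhds h1)] with n hn
  have hpos : 0 < ∫ x, dens (u n) (g n) x := pos_of_ne (hu n).1.1 (hu n).2.1.2.1
  rw [lt_div_iff₀ hpos] at hn
  exact hn.le

theorem kap_lim (hp : 2 < p) (hp2 : p * ((N : ℝ) - 2) < 2 * N) (hε0 : Tendsto ε atTop (𝓝 0)) :
    Tendsto (fun n => ε n ^ kap N p) atTop (𝓝 0) := by
  have hk := kap_pos hp hp2
  have h3 := (Real.continuousAt_rpow_const 0 (kap N p) (Or.inr hk.le)).tendsto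
  rw [Real.zero_rpow hk.ne'] at h3
  exact h3.comp hε0

theorem outmass (hN : 2 ≤ N) (hp : 2 < p) (hp2 : p * ((N : ℝ) - 2) < 2 * N)
    (hu : ∀ n, IsLeast p (ε n) (u n) (g n)) (hy : Near ε u g y) :
    Tendsto (fun n => ε n ^ kap N p * ∫ x in (Metric.ball (pt (y n) : E N) (1 / 4))ᶜ, |u n x| ^ p)
      atTop (𝓝 0) := by
  obtain ⟨hε, hε0, hy⟩ := hy
  obtain ⟨C, hC, HC⟩ := conc2 N hN p hp hp2 (1 / 4) (by norm_num) (by norm_num)
  obtain ⟨c, C', hc, hC', HE⟩ := energy_order N hN p hp hp2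
  have hk := kap_lim hp hp2 hε0
  rw [Metric.tendsto_atTop]
  intro e he
  set η : ℝ := min 1 (e / (4 * C * C')) with hη
  have hη0 : 0 < η := by positivity
  have h1 := hε0.eventually (gt_mem_nhds (show (0 : ℝ) < 1 / 16 by norm_num))
  have h2 := hk.eventually (gt_mem_nhds (show (0 : ℝ) < e / (4 * C) by positivity))
  obtain ⟨n0, hn0⟩ := eventually_atTop.1 ((hy η hη0).and (h1.and h2))
  refine ⟨n0, fun n hn => ?_⟩
  obtain ⟨a1, a2, a3⟩ := hn0 n hn
  have b1 := HC (ε n) (hε n) (by linarith) (u n) (g n) (hu n) (y n) η hη0.le (min_le_left _ _) a1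
  have b2 := (HE (ε n) (hε n) a2.le (u n) (g n) (hu n)).2
  have hεk : 0 < ε n ^ kap N p := Real.rpow_pos_of_pos (hε n) _
  have hnn : 0 ≤ ∫ x in (Metric.ball (pt (y n) : E N) (1 / 4))ᶜ, |u n x| ^ p :=
    integral_nonneg fun x => by positivity
  rw [Real.dist_eq, sub_zero, abs_of_nonneg (by positivity)]
  have b3 := mul_le_mul_of_nonneg_left b1 hεk.le
  have b4 : η ≤ e / (4 * C * C') := min_le_right _ _
  have b5 : C * ε n ^ kap N p < e / 4 := by
    rw [lt_div_iff₀ (by positivity)] at a3; linarith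
  have b6 : C * η * C' ≤ e / 4 := by
    rw [le_div_iff₀ (by positivity)] at b4; linarith
  have b7 : C * η * (ε n ^ kap N p * ∫ x, dens (u n) (g n) x) ≤ C * η * C' :=
    mul_le_mul_of_nonneg_left b2 (by positivity)
  nlinarith

theorem near_mass (hN : 2 ≤ N) (hp : 2 < p) (hp2 : p * ((N : ℝ) - 2) < 2 * N)
    (hu : ∀ n, IsLeast p (ε n) (u n) (g n)) (hy : Near ε u g y) :
    ∃ c : ℝ, 0 < c ∧ ∀ᶠ n in atTop,
      c ≤ ε n ^ kap N p * ∫ x in Metric.ball (pt (y n) : E N) (ε n), |u n x| ^ p := by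
  obtain ⟨C0, hC0, HG⟩ := gn N hN p hp hp2
  obtain ⟨c, C', hc, hC', HE⟩ := energy_order N hN p hp hp2
  have h0 := outmass hN hp hp2 hu hy
  refine ⟨c / 2, by positivity, ?_⟩
  filter_upwards [h0.eventually (gt_mem_nhds (show (0 : ℝ) < c / 2 by positivity)),
    hy.2.1.eventually (gt_mem_nhds (show (0 : ℝ) < 1 / 16 by norm_num))] with n h1 h2
  have h3 := (HE (ε n) (hy.1 n) h2.le (u n) (g n) (hu n)).1
  have h4 := core_mass (δ := 1 / 4) (by linarith) (hu n) (HG _ _ (hu n).1.1).1 (y n)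
  have hεk : 0 < ε n ^ kap N p := Real.rpow_pos_of_pos (hy.1 n) _
  have h5 := mul_le_mul_of_nonneg_left h4 hεk.le
  rw [mul_add] at h5
  linarith

theorem grad_bdd (hN : 2 ≤ N) (hp : 2 < p) (hp2 : p * ((N : ℝ) - 2) < 2 * N)
    (hε : ∀ n, 0 < ε n) (hε0 : Tendsto ε atTop (𝓝 0))
    (hu : ∀ n, IsLeast p (ε n) (u n) (g n)) (k : ℕ → Fin N → ℤ) :
    ∃ M : ℝ, 0 < M ∧ ∀ n, ∫ x, ‖rescG p (ε n) (k n) (g n) x‖ ^ 2 ≤ M := by
  obtain ⟨c, C', hc, hC', HE⟩ := energy_order N hN p hp hp2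
  obtain ⟨n0, hn0⟩ := eventually_atTop.1
    (hε0.eventually (gt_mem_nhds (show (0 : ℝ) < 1 / 16 by norm_num)))
  set S : ℝ := ∑ i ∈ Finset.range n0, ∫ x, ‖rescG p (ε i) (k i) (g i) x‖ ^ 2 with hS
  have hS0 : 0 ≤ S := Finset.sum_nonneg fun i _ => integral_nonneg fun x => sq_nonneg _
  refine ⟨C' + S, by positivity, fun n => ?_⟩
  rcases lt_or_ge n n0 with h | h
  · have h1 : ∫ x, ‖rescG p (ε n) (k n) (g n) x‖ ^ 2 ≤ S :=
      Finset.single_le_sum (f := fun i => ∫ x, ‖rescG p (ε i) (k i) (g i) x‖ ^ 2)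
        (fun i _ => integral_nonneg fun x => sq_nonneg _) (Finset.mem_range.2 h)
    linarith
  · rw [resc_grad hp (hε n)]
    have h1 := (HE (ε n) (hε n) (hn0 n h).le (u n) (g n) (hu n)).2
    have hεk : 0 < ε n ^ kap N p := Real.rpow_pos_of_pos (hε n) _
    have h2 := mul_le_mul_of_nonneg_left (int_grad_le (hu n).1.1) hεk.le
    linarith

theorem resc_ball {ε : ℝ} (hp : 2 < p) (hε : 0 < ε) (u : E N → ℝ) (k : Fin N → ℤ) (R : ℝ) :
    ∫ x in Metric.ball 0 R, |resc p ε k u x| ^ p =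
      ε ^ kap N p * ∫ x in Metric.ball (pt k : E N) (ε * R), |u x| ^ p := by
  rw [← resc_mass hp hε u k Metric.isOpen_ball.measurableSet, preimage_ball hε]

theorem ae_zero_of_balls {f : E N → ℝ≥0∞} (hf : AEMeasurable f (volume : Measure (E N)))
    (h : ∀ R : ℕ, ∫⁻ x in Metric.ball (0 : E N) R, f x = 0) : f =ᵐ[volume] 0 := by
  have h1 : ∀ R : ℕ, ∀ᵐ x ∂(volume : Measure (E N)), x ∈ Metric.ball (0 : E N) R → f x = 0 := by
    intro R
    have h2 := (lintegral_eq_zero_iff' hf.restrict).1 (h R)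
    exact (ae_restrict_iff' Metric.isOpen_ball.measurableSet).1 h2
  filter_upwards [ae_all_iff.2 h1] with x hx
  obtain ⟨R, hR⟩ := exists_nat_gt ‖x‖
  exact hx R (by rw [mem_ball_zero_iff]; exact hR)

/-- Q1 -/
theorem Q1 (hN : 3 ≤ N) (hp : 2 < p) (hp2 : p * ((N : ℝ) - 2) < 2 * N)
    (hε : ∀ n, 0 < ε n) (hε0 : Tendsto ε atTop (𝓝 0)) (hu : ∀ n, IsLeast p (ε n) (u n) (g n)) :
    ∃ (k : ℕ → Fin N → ℤ) (φ : ℕ → ℕ) (v : E N → ℝ) (G : E N → E N), StrictMono φ ∧ InD v G ∧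
      WeakD (fun n => rescG p (ε (φ n)) (k (φ n)) (g (φ n))) G ∧ ¬ v =ᵐ[volume] 0 ∧
      ((∀ n, 0 ≤ᵐ[volume] u n) → 0 ≤ᵐ[volume] v) := by
  obtain ⟨y, hy⟩ := exists_near (by omega) hp hp2 hε hε0 hu
  obtain ⟨c, hc, hcm⟩ := near_mass (by omega) hp hp2 hu hy
  obtain ⟨M, hM0, hM⟩ := grad_bdd (by omega) hp hp2 hε hε0 hu y
  obtain ⟨C0, hC0, HG⟩ := gn N (by omega) p hp hp2
  have hH : ∀ n, InH1 (resc p (ε n) (y n) (u n)) (rescG p (ε n) (y n) (g n)) :=
    fun n => resc_InH1 (hε n) (hu n).1.1 (y n)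
  have hD : ∀ n, InD (resc p (ε n) (y n) (u n)) (rescG p (ε n) (y n) (g n)) :=
    fun n => (hH n).inD hN
  obtain ⟨φ, hφ, v, G, hvG, hw⟩ := weak_compact hN hD hM
  have hloc := fun R => weak_loc N hN p hp hp2 (fun n => hD (φ n)) (fun n => hM (φ n)) hvG hw R
  refine ⟨y, φ, v, G, hφ, hvG, hw, ?_, ?_⟩
  · intro hv0
    have h1 := hloc 1
    have e : ∀ n, ∫⁻ x in Metric.ball 0 1, ‖resc p (ε (φ n)) (y (φ n)) (u (φ n)) x - v x‖ₑ ^ p =
        ENNReal.ofReal (ε (φ n) ^ kap N p *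
          ∫ x in Metric.ball (pt (y (φ n)) : E N) (ε (φ n)), |u (φ n) x| ^ p) := by
      intro n
      have h2 := resc_ball hp (hε (φ n)) (u (φ n)) (y (φ n)) 1
      rw [mul_one] at h2
      rw [← h2, ← lint_eq (by linarith) (HG _ _ (hH (φ n))).1.integrableOn]
      refine lintegral_congr_ae (ae_restrict_of_ae ?_)
      filter_upwards [hv0] with x hx
      rw [hx]; simp
    simp only [e] at h1
    have h3 : ∀ᶠ n in atTop, ENNReal.ofReal c ≤ ENNReal.ofReal (ε (φ n) ^ kap N p *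
          ∫ x in Metric.ball (pt (y (φ n)) : E N) (ε (φ n)), |u (φ n) x| ^ p) := by
      filter_upwards [hφ.tendsto_atTop.eventually hcm] with n hn
      exact ENNReal.ofReal_le_ofReal hn
    have h4 := ge_of_tendsto h1 h3
    rw [nonpos_iff_eq_zero, ENNReal.ofReal_eq_zero] at h4
    linarith
  · intro hpos
    have hneg : (fun x => ENNReal.ofReal (-v x) ^ p) =ᵐ[volume] 0 := by
      refine ae_zero_of_balls ?_ fun R => ?_
      · exact (hvG.1.1.aemeasurable.neg.ennreal_ofReal).pow_const p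
      · have h1 := hloc R
        have h2 : ∀ n, ∫⁻ x in Metric.ball (0 : E N) R, ENNReal.ofReal (-v x) ^ p ≤
            ∫⁻ x in Metric.ball 0 R, ‖resc p (ε (φ n)) (y (φ n)) (u (φ n)) x - v x‖ₑ ^ p := by
          intro n
          refine lintegral_mono_ae (ae_restrict_of_ae ?_)
          have h3 : ∀ᵐ x ∂(volume : Measure (E N)),
              0 ≤ u (φ n) (ε (φ n) • x + pt (y (φ n))) := by
            have hm : Measurable fun x : E N => ε (φ n) • x + pt (y (φ n)) := by fun_prop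
            have hq : Measure.QuasiMeasurePreserving
                (fun x : E N => ε (φ n) • x + pt (y (φ n))) volume volume := by
              refine ⟨hm, ?_⟩
              rw [map_aff (hε (φ n))]
              exact Measure.smul_absolutelyContinuous
            exact hq.ae (hpos (φ n))
          filter_upwards [h3] with x hx
          refine ENNReal.rpow_le_rpow ?_ (by linarith)
          rw [Real.enorm_eq_ofReal_abs]
          refine ENNReal.ofReal_le_ofReal ?_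
          have h5 : 0 ≤ resc p (ε (φ n)) (y (φ n)) (u (φ n)) x :=
            mul_nonneg (Real.rpow_nonneg (hε (φ n)).le _) hx
          have h6 := le_abs_self (resc p (ε (φ n)) (y (φ n)) (u (φ n)) x - v x)
          linarith
        have h3 := ge_of_tendsto' h1 h2
        exact nonpos_iff_eq_zero.1 h3
    filter_upwards [hneg] with x hx
    have h1 : ENNReal.ofReal (-v x) ^ p = 0 := hx
    rw [ENNReal.rpow_eq_zero_iff] at h1
    rcases h1 with ⟨h1, -⟩ | ⟨h1, -⟩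
    · rw [ENNReal.ofReal_eq_zero] at h1
      simp only [Pi.zero_apply]; linarith
    · exact absurd h1 ENNReal.ofReal_ne_top

end

end Pool.Agent.Q62.PC
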