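import Pool.Agent.Q62.PD.D5

/-! Strong convergence in `L^p`. -/

open MeasureTheory Set Filter Topology
open scoped ENNReal NNReal ContDiff

namespace Pool.Agent.Q62.PC

theorem tail_bound (N : ℕ) (p : ℝ) (hp : 2 < p) (hp2 : p * ((N : ℝ) - 2) < 2 * N) :
    ∃ C : ℝ, 0 < C ∧ ∀ ε ρ : ℝ, 0 < ε → 2 * ε ≤ ρ → ρ ≤ 1 / 4 → ∀ (u : E N → ℝ) (g : E N → E N),
      IsSol p ε u g → Integrable (fun x => |u x| ^ p) (volume : Measure (E N)) →
      ∀ z : Fin N → ℤ, ∫ x in Metric.ball (pt z : E N) (1 / 4) \ Metric.ball (pt z) ρ, |u x| ^ p ≤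
        C * ρ ^ (-kap N p) := by
  obtain ⟨C, hC, H⟩ := ko N p hp
  have hk := kap_pos hp hp2
  set t : ℝ := 2 ^ (-kap N p) with ht
  have ht0 : 0 < t := Real.rpow_pos_of_pos (by norm_num) _
  have ht1 : t < 1 := Real.rpow_lt_one_of_one_lt_of_neg (by norm_num) (by linarith)
  refine ⟨C / (1 - t), div_pos hC (by linarith), ?_⟩
  intro ε ρ hε hερ hρ u g hu hup z
  have hρ0 : 0 < ρ := by linarith
  have hind : ∀ J : ℕ, 2 ^ J * ρ ≤ 1 / 2 →
      ∫ x in Metric.ball (pt z : E N) (2 ^ J * ρ) \ Metric.ball (pt z) ρ, |u x| ^ p ≤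
        C * ρ ^ (-kap N p) * ((1 - t ^ J) / (1 - t)) := by
    intro J
    induction J with
    | zero => intro _; simp
    | succ J ih =>
      intro hJ
      have hJ' : 2 ^ J * ρ ≤ 1 / 2 := by
        rw [pow_succ] at hJ
        have : 0 < 2 ^ J * ρ := by positivity
        linarith
      have h1 := ih hJ'
      have h2J : (1 : ℝ) ≤ 2 ^ J := one_le_pow₀ (by norm_num)
      have h2 := H ε (2 ^ (J + 1) * ρ) hε (by rw [pow_succ]; nlinarith) hJ u g hu hup z
      have hsub : Metric.ball (pt z : E N) (2 ^ (J + 1) * ρ) \ Metric.ball (pt z) ρ ⊆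
          (Metric.ball (pt z : E N) (2 ^ J * ρ) \ Metric.ball (pt z) ρ) ∪
            ann (pt z) (2 ^ (J + 1) * ρ) := by
        rintro x ⟨hx1, hx2⟩
        by_cases hx : x ∈ Metric.ball (pt z : E N) (2 ^ J * ρ)
        · exact Or.inl ⟨hx, hx2⟩
        · refine Or.inr ⟨Metric.ball_subset_closedBall hx1, ?_⟩
          have : 2 ^ (J + 1) * ρ / 2 = 2 ^ J * ρ := by rw [pow_succ]; ring
          rwa [this]
      have hmA : MeasurableSet (ann (pt z : E N) (2 ^ (J + 1) * ρ)) :=
        Metric.isClosed_closedBall.measurableSet.diff Metric.isOpen_ball.measurableSet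
      have h3 : ∫ x in Metric.ball (pt z : E N) (2 ^ (J + 1) * ρ) \ Metric.ball (pt z) ρ,
          |u x| ^ p ≤
          (∫ x in Metric.ball (pt z : E N) (2 ^ J * ρ) \ Metric.ball (pt z) ρ, |u x| ^ p) +
            ∫ x in ann (pt z : E N) (2 ^ (J + 1) * ρ), |u x| ^ p := by
        refine (setIntegral_mono_set hup.integrableOn
          (Eventually.of_forall fun x => by positivity) hsub.eventuallyLE).trans ?_
        set S : Set (E N) := Metric.ball (pt z : E N) (2 ^ J * ρ) \ Metric.ball (pt z) ρ with hS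
        set T : Set (E N) := ann (pt z : E N) (2 ^ (J + 1) * ρ) with hT
        have hSm : MeasurableSet S :=
          Metric.isOpen_ball.measurableSet.diff Metric.isOpen_ball.measurableSet
        rw [← integral_indicator (hSm.union hmA), ← integral_indicator hSm,
          ← integral_indicator hmA, ← integral_add (hup.indicator hSm) (hup.indicator hmA)]
        refine integral_mono (hup.indicator (hSm.union hmA))
          ((hup.indicator hSm).add (hup.indicator hmA)) fun x => ?_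
        have n1 : 0 ≤ S.indicator (fun x => |u x| ^ p) x :=
          indicator_nonneg (fun x _ => by positivity) x
        have n2 : 0 ≤ T.indicator (fun x => |u x| ^ p) x :=
          indicator_nonneg (fun x _ => by positivity) x
        simp only
        by_cases hx : x ∈ S ∪ T
        · rw [indicator_of_mem hx]
          rcases hx with hx | hx
          · rw [indicator_of_mem hx]; linarith
          · rw [indicator_of_mem hx (fun x => |u x| ^ p)]; linarith
        · rw [indicator_of_notMem hx]; linarith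
      have h4 : ∫ x in ann (pt z : E N) (2 ^ (J + 1) * ρ), |u x| ^ p ≤
          C * ρ ^ (-kap N p) * t ^ (J + 1) := by
        have h5 : ∫ x in ann (pt z : E N) (2 ^ (J + 1) * ρ), |u x| ^ p ≤
            ∫ x in ann (pt z : E N) (2 ^ (J + 1) * ρ), (dens u g x + |u x| ^ p) := by
          refine setIntegral_mono hup.integrableOn ((int_dens hu.1).add hup).integrableOn
            fun x => ?_
          have := dens_nonneg u g x
          simp only
          linarith
        refine (h5.trans h2).trans (le_of_eq ?_)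
        have e1 : (N : ℝ) - 2 * p / (p - 2) = -kap N p := by unfold kap; ring
        rw [e1, Real.mul_rpow (by positivity) hρ0.le, ← Real.rpow_natCast,
          ← Real.rpow_mul (by norm_num)]
        have e2 : (2 : ℝ) ^ (((J + 1 : ℕ) : ℝ) * -kap N p) = t ^ (J + 1) := by
          rw [ht, ← Real.rpow_natCast (2 ^ _), ← Real.rpow_mul (by norm_num), mul_comm]
        rw [e2]; ring
      refine h3.trans ((add_le_add h1 h4).trans ?_)
      have hA : 0 < C * ρ ^ (-kap N p) := mul_pos hC (Real.rpow_pos_of_pos hρ0 _)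
      rw [← mul_add]
      refine mul_le_mul_of_nonneg_left ?_ hA.le
      have h1t : 0 < 1 - t := by linarith
      rw [div_add' _ _ _ h1t.ne', div_le_div_iff_of_pos_right h1t]
      have htJ : 0 < t ^ J := by positivity
      have e3 : t ^ (J + 1) = t ^ J * t := pow_succ t J
      rw [e3]
      nlinarith [mul_pos htJ h1t]
  -- choose J
  obtain ⟨J0, hJ0⟩ := exists_nat_gt (1 / (2 * ρ))
  have hex : ∃ J : ℕ, 1 / 2 < 2 ^ (J + 1) * ρ := by
    refine ⟨J0, ?_⟩
    have h1 : (J0 : ℝ) < 2 ^ J0 := by exact_mod_cast Nat.lt_two_pow_self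
    have h2 : (2 : ℝ) ^ J0 ≤ 2 ^ (J0 + 1) := pow_le_pow_right₀ (by norm_num) (by omega)
    have h3 : 1 / (2 * ρ) < 2 ^ (J0 + 1) := by linarith
    rw [div_lt_iff₀ (by positivity)] at h3
    linarith
  classical
  set J : ℕ := Nat.find hex with hJdef
  have hJ1 : 1 / 2 < 2 ^ (J + 1) * ρ := Nat.find_spec hex
  have hJ2 : 2 ^ J * ρ ≤ 1 / 2 := by
    rcases Nat.eq_zero_or_pos J with h0 | h0
    · rw [h0]; linarith
    · have := Nat.find_min hex (m := J - 1) (by omega)
      rw [not_lt] at this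
      have e : J - 1 + 1 = J := by omega
      rwa [e] at this
  have h1 := hind J hJ2
  have hsub : Metric.ball (pt z : E N) (1 / 4) \ Metric.ball (pt z) ρ ⊆
      Metric.ball (pt z : E N) (2 ^ J * ρ) \ Metric.ball (pt z) ρ := by
    refine diff_subset_diff_left (Metric.ball_subset_ball ?_)
    rw [pow_succ] at hJ1
    linarith
  refine (setIntegral_mono_set hup.integrableOn (Eventually.of_forall fun x => by positivity)
    hsub.eventuallyLE).trans (h1.trans ?_)
  have hA : 0 < ρ ^ (-kap N p) := Real.rpow_pos_of_pos hρ0 _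
  have h1t : 0 < 1 - t := by linarith
  have h2 : (1 - t ^ J) / (1 - t) ≤ 1 / (1 - t) := by
    rw [div_le_div_iff_of_pos_right h1t]
    have : 0 < t ^ J := by positivity
    linarith
  calc C * ρ ^ (-kap N p) * ((1 - t ^ J) / (1 - t)) ≤ C * ρ ^ (-kap N p) * (1 / (1 - t)) :=
        mul_le_mul_of_nonneg_left h2 (by positivity)
    _ = _ := by ring

theorem enorm_sub_pow {p : ℝ} (hp : 1 ≤ p) (a b : ℝ) :
    ‖a‖ₑ ^ p ≤ 2 ^ (p - 1) * (‖b - a‖ₑ ^ p + ‖b‖ₑ ^ p) := by
  have h1 : ‖a‖ₑ ≤ ‖b - a‖ₑ + ‖b‖ₑ := by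
    have : a = -(b - a) + b := by ring
    calc ‖a‖ₑ = ‖-(b - a) + b‖ₑ := by rw [← this]
      _ ≤ ‖-(b - a)‖ₑ + ‖b‖ₑ := enorm_add_le _ _
      _ = _ := by rw [enorm_neg]
  exact (ENNReal.rpow_le_rpow h1 (by linarith)).trans
    (ENNReal.rpow_add_le_mul_rpow_add_rpow _ _ hp)

theorem enorm_sub_pow' {p : ℝ} (hp : 1 ≤ p) (a b : ℝ) :
    ‖b - a‖ₑ ^ p ≤ 2 ^ (p - 1) * (‖b‖ₑ ^ p + ‖a‖ₑ ^ p) := by
  have h1 : ‖b - a‖ₑ ≤ ‖b‖ₑ + ‖a‖ₑ := enorm_sub_le
  exact (ENNReal.rpow_le_rpow h1 (by linarith)).trans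
    (ENNReal.rpow_add_le_mul_rpow_add_rpow _ _ hp)

theorem two_ne_top' (p : ℝ) (hp : 1 ≤ p) : (2 : ℝ≥0∞) ^ (p - 1) ≠ ⊤ :=
  ENNReal.rpow_ne_top_of_nonneg (by linarith) (by norm_num)

section

variable {N : ℕ} {p : ℝ} {ε : ℕ → ℝ} {u : ℕ → E N → ℝ} {g : ℕ → E N → E N}
  {y k : ℕ → Fin N → ℤ}

theorem lint_sub_le {S : Set (E N)} (hp : 1 ≤ p) {a b : E N → ℝ}
    (ha : AEStronglyMeasurable a (volume : Measure (E N)))
    (hb : AEStronglyMeasurable b (volume : Measure (E N))) :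
    ∫⁻ x in S, ‖a x‖ₑ ^ p ≤ 2 ^ (p - 1) *
      ((∫⁻ x in S, ‖b x - a x‖ₑ ^ p) + ∫⁻ x in S, ‖b x‖ₑ ^ p) := by
  have m1 : AEMeasurable (fun x => ‖b x - a x‖ₑ ^ p) (volume.restrict S) :=
    ((hb.sub ha).restrict.enorm).pow_const p
  rw [← lintegral_add_left' m1, ← lintegral_const_mul' _ _ (two_ne_top' p hp)]
  exact lintegral_mono fun x => enorm_sub_pow hp _ _

theorem lint_sub_le' {S : Set (E N)} (hp : 1 ≤ p) {a b : E N → ℝ}
    (hb : AEStronglyMeasurable b (volume : Measure (E N))) :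
    ∫⁻ x in S, ‖b x - a x‖ₑ ^ p ≤ 2 ^ (p - 1) *
      ((∫⁻ x in S, ‖b x‖ₑ ^ p) + ∫⁻ x in S, ‖a x‖ₑ ^ p) := by
  have m1 : AEMeasurable (fun x => ‖b x‖ₑ ^ p) (volume.restrict S) :=
    (hb.restrict.enorm).pow_const p
  rw [← lintegral_add_left' m1, ← lintegral_const_mul' _ _ (two_ne_top' p hp)]
  exact lintegral_mono fun x => enorm_sub_pow' hp _ _

/-- a nonzero weak limit is only found at the concentration points -/
theorem keq (hN : 3 ≤ N) (hp : 2 < p) (hp2 : p * ((N : ℝ) - 2) < 2 * N)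
    (hu : ∀ n, IsLeast p (ε n) (u n) (g n)) (hy : Near ε u g y) {v : E N → ℝ} {G : E N → E N}
    (hvG : InD v G) (hw : WeakD (fun n => rescG p (ε n) (k n) (g n)) G)
    (hv0 : ¬ v =ᵐ[volume] 0) : ∀ᶠ n in atTop, k n = y n := by
  by_contra hcon
  rw [not_eventually] at hcon
  obtain ⟨ψ, hψ, hψ2⟩ := extraction_of_frequently_atTop hcon
  obtain ⟨M, hM0, hM⟩ := grad_bdd (by omega) hp hp2 hy.1 hy.2.1 hu k
  obtain ⟨C0, hC0, HG⟩ := gn N (by omega) p hp hp2
  have hH : ∀ n, InH1 (resc p (ε n) (k n) (u n)) (rescG p (ε n) (k n) (g n)) :=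
    fun n => resc_InH1 (hy.1 n) (hu n).1.1 (k n)
  have hD : ∀ n, InD (resc p (ε n) (k n) (u n)) (rescG p (ε n) (k n) (g n)) :=
    fun n => (hH n).inD hN
  have hloc := fun R => (weak_loc N hN p hp hp2 hD hM hvG hw R).comp hψ.tendsto_atTop
  have hout := (outmass (by omega) hp hp2 hu hy).comp hψ.tendsto_atTop
  apply hv0
  have h0 : (fun x => ‖v x‖ₑ ^ p) =ᵐ[volume] 0 := by
    refine ae_zero_of_balls ((hvG.1.1.enorm).pow_const p) fun R => ?_
    have hlim : Tendsto (fun n => (2 : ℝ≥0∞) ^ (p - 1) *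
        ((∫⁻ x in Metric.ball 0 R, ‖resc p (ε (ψ n)) (k (ψ n)) (u (ψ n)) x - v x‖ₑ ^ p) +
        ENNReal.ofReal (ε (ψ n) ^ kap N p *
          ∫ x in (Metric.ball (pt (y (ψ n)) : E N) (1 / 4))ᶜ, |u (ψ n) x| ^ p))) atTop
        (𝓝 (2 ^ (p - 1) * (0 + ENNReal.ofReal 0))) :=
      ENNReal.Tendsto.const_mul ((hloc R).add (ENNReal.tendsto_ofReal hout))
        (Or.inr (two_ne_top' p (by linarith)))
    rw [ENNReal.ofReal_zero, add_zero, mul_zero] at hlim
    refine nonpos_iff_eq_zero.1 (ge_of_tendsto hlim ?_)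
    have hsm : ∀ᶠ n in atTop, ε (ψ n) * (R + 1) < 1 / 4 := by
      have h1 : Tendsto (fun n => ε (ψ n) * ((R : ℝ) + 1)) atTop (𝓝 0) := by
        have := (hy.2.1.comp hψ.tendsto_atTop).mul_const ((R : ℝ) + 1)
        simpa using this
      exact h1.eventually (gt_mem_nhds (by norm_num))
    filter_upwards [hsm] with n hn
    refine (lint_sub_le (by linarith) hvG.1.1 (hD (ψ n)).1.1).trans ?_
    gcongr
    rw [lint_eq (by linarith) (HG _ _ (hH (ψ n))).1.integrableOn, resc_ball hp (hy.1 (ψ n))]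
    refine ENNReal.ofReal_le_ofReal (mul_le_mul_of_nonneg_left ?_
      (Real.rpow_nonneg (hy.1 (ψ n)).le _))
    refine setIntegral_mono_set (HG _ _ (hu (ψ n)).1.1).1.integrableOn
      (Eventually.of_forall fun x => by positivity) (HasSubset.Subset.eventuallyLE ?_)
    have hd := disj (N := N) (δ := 1 / 4) (by norm_num) (hψ2 n)
    refine Subset.trans (Metric.ball_subset_ball ?_) hd.subset_compl_right
    have := hy.1 (ψ n)
    nlinarith
  filter_upwards [h0] with x hx
  have h1 : ‖v x‖ₑ ^ p = 0 := hx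
  rw [ENNReal.rpow_eq_zero_iff] at h1
  rcases h1 with ⟨h1, -⟩ | ⟨h1, -⟩
  · simpa using h1
  · exact absurd h1 enorm_ne_top

theorem preimage_ball_compl {ε : ℝ} (hε : 0 < ε) (b : E N) (R : ℝ) :
    (fun x => ε • x + b) ⁻¹' (Metric.ball b (ε * R))ᶜ = (Metric.ball (0 : E N) R)ᶜ := by
  rw [preimage_compl, preimage_ball hε]

/-- the tails of the rescaled functions -/
theorem tails (hN : 2 ≤ N) (hp : 2 < p) (hp2 : p * ((N : ℝ) - 2) < 2 * N)
    (hu : ∀ n, IsLeast p (ε n) (u n) (g n)) (hy : Near ε u g y)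
    (hk : ∀ᶠ n in atTop, k n = y n) : ∃ C : ℝ, 0 < C ∧ ∀ R : ℝ, 2 ≤ R → ∀ e : ℝ, 0 < e →
      ∀ᶠ n in atTop, ∫⁻ x in (Metric.ball (0 : E N) R)ᶜ, ‖resc p (ε n) (k n) (u n) x‖ₑ ^ p ≤
        ENNReal.ofReal (C * R ^ (-kap N p) + e) := by
  obtain ⟨C, hC, HT⟩ := tail_bound N p hp hp2
  obtain ⟨C0, hC0, HG⟩ := gn N (by omega) p hp hp2
  refine ⟨C, hC, fun R hR e he => ?_⟩
  have hout := outmass (by omega) hp hp2 hu hy
  have hsm : ∀ᶠ n in atTop, ε n * R < 1 / 4 := by
    have h1 : Tendsto (fun n => ε n * R) atTop (𝓝 0) := by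
      have := hy.2.1.mul_const R
      simpa using this
    exact h1.eventually (gt_mem_nhds (by norm_num))
  filter_upwards [hk, hsm, hout.eventually (gt_mem_nhds he)] with n h1 h2 h3
  have hεn := hy.1 n
  have hup := (HG _ _ (hu n).1.1).1
  have hupR := (HG _ _ (resc_InH1 (p := p) hεn (hu n).1.1 (k n))).1
  rw [lint_eq (by linarith) hupR.integrableOn, ← preimage_ball_compl hεn (pt (k n)),
    resc_mass hp hεn (u n) (k n) Metric.isOpen_ball.measurableSet.compl, h1]
  refine ENNReal.ofReal_le_ofReal ?_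
  have h4 := HT (ε n) (ε n * R) hεn (by nlinarith) h2.le (u n) (g n) (hu n).1 hup (y n)
  have hεk : 0 < ε n ^ kap N p := Real.rpow_pos_of_pos hεn _
  have h5 : ∫ x in (Metric.ball (pt (y n) : E N) (ε n * R))ᶜ, |u n x| ^ p ≤
      (∫ x in Metric.ball (pt (y n) : E N) (1 / 4) \ Metric.ball (pt (y n)) (ε n * R),
        |u n x| ^ p) + ∫ x in (Metric.ball (pt (y n) : E N) (1 / 4))ᶜ, |u n x| ^ p := by
    have mB : ∀ r, MeasurableSet (Metric.ball (pt (y n) : E N) r) :=
      fun _ => Metric.isOpen_ball.measurableSet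
    rw [← integral_indicator (mB _).compl, ← integral_indicator ((mB _).diff (mB _)),
      ← integral_indicator (mB _).compl,
      ← integral_add (hup.indicator ((mB _).diff (mB _))) (hup.indicator (mB _).compl)]
    refine integral_mono (hup.indicator (mB _).compl)
      ((hup.indicator ((mB _).diff (mB _))).add (hup.indicator (mB _).compl)) fun x => ?_
    have n1 : 0 ≤ (Metric.ball (pt (y n) : E N) (1 / 4) \
        Metric.ball (pt (y n)) (ε n * R)).indicator (fun x => |u n x| ^ p) x :=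
      indicator_nonneg (fun x _ => by positivity) x
    have n2 : 0 ≤ (Metric.ball (pt (y n) : E N) (1 / 4))ᶜ.indicator (fun x => |u n x| ^ p) x :=
      indicator_nonneg (fun x _ => by positivity) x
    simp only
    by_cases hx : x ∈ (Metric.ball (pt (y n) : E N) (ε n * R))ᶜ
    · rw [indicator_of_mem hx]
      by_cases hx2 : x ∈ Metric.ball (pt (y n) : E N) (1 / 4)
      · rw [indicator_of_mem (show x ∈ Metric.ball (pt (y n) : E N) (1 / 4) \
          Metric.ball (pt (y n)) (ε n * R) from ⟨hx2, hx⟩)]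
        linarith
      · rw [indicator_of_mem (show x ∈ (Metric.ball (pt (y n) : E N) (1 / 4))ᶜ from hx2)]
        linarith
    · rw [indicator_of_notMem hx]; linarith
  have h6 := mul_le_mul_of_nonneg_left (h5.trans (add_le_add_left h4 _)) hεk.le
  have h7 : ε n ^ kap N p * (C * (ε n * R) ^ (-kap N p)) = C * R ^ (-kap N p) := by
    rw [Real.mul_rpow hεn.le (by linarith), Real.rpow_neg hεn.le]
    field_simp
  rw [mul_add, h7] at h6
  linarith

end

end Pool.Agent.Q62.PC
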