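import Pool.Agent.Q62.PD.D6

/-! Strong convergence. -/

open MeasureTheory Set Filter Topology
open scoped ENNReal NNReal ContDiff

namespace Pool.Agent.Q62.PC

theorem lint_compl_le {N : ℕ} {f : E N → ℝ≥0∞} (hf : AEMeasurable f (volume : Measure (E N)))
    {S : Set (E N)} (hS : MeasurableSet S) {D : ℝ≥0∞}
    (h : ∀ R : ℕ, ∫⁻ x in Metric.ball (0 : E N) R ∩ S, f x ≤ D) : ∫⁻ x in S, f x ≤ D := by
  have mB : ∀ R : ℕ, MeasurableSet (Metric.ball (0 : E N) R ∩ S) :=
    fun _ => Metric.isOpen_ball.measurableSet.inter hS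
  have h1 : Tendsto (fun R : ℕ => ∫⁻ x, (Metric.ball (0 : E N) R ∩ S).indicator f x) atTop
      (𝓝 (∫⁻ x, S.indicator f x)) := by
    refine lintegral_tendsto_of_tendsto_of_monotone (fun R => hf.indicator (mB R)) ?_ ?_
    · refine Eventually.of_forall fun x => ?_
      intro R R' hR
      refine indicator_le_indicator_of_subset (inter_subset_inter_left _
        (Metric.ball_subset_ball (by exact_mod_cast hR))) (fun _ => bot_le) x
    · refine Eventually.of_forall fun x => ?_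
      obtain ⟨R0, hR0⟩ := exists_nat_gt ‖x‖
      refine tendsto_const_nhds.congr' ?_
      filter_upwards [eventually_ge_atTop R0] with R hR
      have hxB : x ∈ Metric.ball (0 : E N) R := by
        rw [mem_ball_zero_iff]
        exact lt_of_lt_of_le hR0 (by exact_mod_cast hR)
      by_cases hx : x ∈ S
      · rw [indicator_of_mem hx, indicator_of_mem (show x ∈ Metric.ball (0 : E N) R ∩ S from
          ⟨hxB, hx⟩)]
      · rw [indicator_of_notMem hx, indicator_of_notMem (show x ∉ Metric.ball (0 : E N) R ∩ S from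
          fun h => hx h.2)]
  rw [← lintegral_indicator hS]
  refine le_of_tendsto' h1 fun R => ?_
  rw [lintegral_indicator (mB R)]
  exact h R

section

variable {N : ℕ} {p : ℝ} {ε : ℕ → ℝ} {u : ℕ → E N → ℝ} {g : ℕ → E N → E N}
  {y k : ℕ → Fin N → ℤ}

/-- strong convergence in `L^p` -/
theorem lp_strong (hN : 3 ≤ N) (hp : 2 < p) (hp2 : p * ((N : ℝ) - 2) < 2 * N)
    (hu : ∀ n, IsLeast p (ε n) (u n) (g n)) (hy : Near ε u g y) {v : E N → ℝ} {G : E N → E N}
    (hvG : InD v G) (hw : WeakD (fun n => rescG p (ε n) (k n) (g n)) G)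
    (hk : ∀ᶠ n in atTop, k n = y n) :
    Tendsto (fun n => ∫⁻ x, ‖resc p (ε n) (k n) (u n) x - v x‖ₑ ^ p) atTop (𝓝 0) := by
  obtain ⟨M, hM0, hM⟩ := grad_bdd (by omega) hp hp2 hy.1 hy.2.1 hu k
  have hD : ∀ n, InD (resc p (ε n) (k n) (u n)) (rescG p (ε n) (k n) (g n)) :=
    fun n => (resc_InH1 (hy.1 n) (hu n).1.1 (k n)).inD hN
  have hloc := fun R => weak_loc N hN p hp hp2 hD hM hvG hw R
  obtain ⟨C, hC, HT⟩ := tails (by omega) hp hp2 hu hy hk
  have hkp := kap_pos hp hp2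
  have h2p := two_ne_top' p (by linarith)
  -- the tail of the limit
  have htail : ∀ R : ℝ, 2 ≤ R → ∀ e : ℝ, 0 < e → ∫⁻ x in (Metric.ball (0 : E N) R)ᶜ, ‖v x‖ₑ ^ p ≤
      2 ^ (p - 1) * (0 + ENNReal.ofReal (C * R ^ (-kap N p) + e)) := by
    intro R hR e he
    refine lint_compl_le ((hvG.1.1.enorm).pow_const p) Metric.isOpen_ball.measurableSet.compl
      fun R' => ?_
    have hlim : Tendsto (fun n => (2 : ℝ≥0∞) ^ (p - 1) *
        ((∫⁻ x in Metric.ball (0 : E N) R', ‖resc p (ε n) (k n) (u n) x - v x‖ₑ ^ p) +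
        ENNReal.ofReal (C * R ^ (-kap N p) + e))) atTop
        (𝓝 (2 ^ (p - 1) * (0 + ENNReal.ofReal (C * R ^ (-kap N p) + e)))) :=
      ENNReal.Tendsto.const_mul ((hloc R').add tendsto_const_nhds) (Or.inr h2p)
    refine ge_of_tendsto hlim ?_
    filter_upwards [HT R hR e he] with n hn
    refine (lint_sub_le (by linarith) hvG.1.1 (hD n).1.1).trans ?_
    gcongr
    · exact inter_subset_left
    · exact (lintegral_mono_set inter_subset_right).trans hn
  rw [ENNReal.tendsto_nhds_zero]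
  intro e he
  -- choose R
  have hRlim : Tendsto (fun R : ℝ => (2 : ℝ≥0∞) ^ (p - 1) *
      (ENNReal.ofReal (C * R ^ (-kap N p) + R ^ (-kap N p)) +
        2 ^ (p - 1) * (0 + ENNReal.ofReal (C * R ^ (-kap N p) + R ^ (-kap N p))))) atTop (𝓝 0) := by
    have h1 : Tendsto (fun R : ℝ => R ^ (-kap N p)) atTop (𝓝 0) := tendsto_rpow_neg_atTop hkp
    have h2 : Tendsto (fun R : ℝ => ENNReal.ofReal (C * R ^ (-kap N p) + R ^ (-kap N p))) atTop
        (𝓝 0) := by
      have := ENNReal.tendsto_ofReal ((h1.const_mul C).add h1)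
      rwa [mul_zero, add_zero, ENNReal.ofReal_zero] at this
    have h3 : Tendsto (fun R : ℝ => (2 : ℝ≥0∞) ^ (p - 1) *
        (0 + ENNReal.ofReal (C * R ^ (-kap N p) + R ^ (-kap N p)))) atTop (𝓝 0) := by
      have := ENNReal.Tendsto.const_mul (a := (2 : ℝ≥0∞) ^ (p - 1))
        ((tendsto_const_nhds (x := (0 : ℝ≥0∞))).add h2) (Or.inr h2p)
      rwa [add_zero, mul_zero] at this
    have := ENNReal.Tendsto.const_mul (a := (2 : ℝ≥0∞) ^ (p - 1)) (h2.add h3) (Or.inr h2p)
    rwa [add_zero, mul_zero] at this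
  have he2 : (0 : ℝ≥0∞) < e / 2 := ENNReal.half_pos he.ne'
  obtain ⟨R, hR1, hR2⟩ := ((hRlim.eventually (gt_mem_nhds he2)).and
    (eventually_ge_atTop (2 : ℝ))).exists
  have hRp : 0 < R ^ (-kap N p) := Real.rpow_pos_of_pos (by linarith) _
  filter_upwards [(hloc R).eventually (gt_mem_nhds he2), HT R hR2 _ hRp] with n h1 h2
  rw [← lintegral_add_compl _ (Metric.isOpen_ball (x := (0 : E N)) (ε := R)).measurableSet]
  have h3 : ∫⁻ x in (Metric.ball (0 : E N) R)ᶜ, ‖resc p (ε n) (k n) (u n) x - v x‖ₑ ^ p ≤ e / 2 := by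
    refine (lint_sub_le' (by linarith) (hD n).1.1).trans (le_trans ?_ hR1.le)
    gcongr
    exact htail R hR2 _ hRp
  calc _ ≤ e / 2 + e / 2 := add_le_add h1.le h3
    _ = e := ENNReal.add_halves e

/-- the rescaled equation -/
theorem resc_eq {ε : ℝ} (hp : 2 < p) (hε : 0 < ε) {u : E N → ℝ} {g : E N → E N}
    (hu : IsSol p ε u g) (k : Fin N → ℤ) {w : E N → ℝ} {H : E N → E N} (hw : InH1 w H) :
    ∫ x, (inner ℝ (rescG p ε k g x) (H x) + ε ^ 2 * (resc p ε k u x * w x)) =
      ∫ x, Q ε (ε • x + pt k) * (|resc p ε k u x| ^ (p - 2) * resc p ε k u x) * w x := by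
  have hp2 : p - 2 ≠ 0 := by linarith
  have h1 := hu.2 _ _ (hw.aff (inv_pos.2 hε) (-(ε⁻¹ • pt k)))
  have h2 := int_aff (fun y => inner ℝ (g y) (ε⁻¹ • H (ε⁻¹ • y + -(ε⁻¹ • pt k))) +
    u y * w (ε⁻¹ • y + -(ε⁻¹ • pt k))) hε (pt k)
  have h3 := int_aff (fun y => Q ε y * (|u y| ^ (p - 2) * u y) * w (ε⁻¹ • y + -(ε⁻¹ • pt k)))
    hε (pt k)
  rw [h1, ← h3] at h2
  have e0 : ∀ x : E N, ε⁻¹ • (ε • x + pt k) + -(ε⁻¹ • pt k) = x := by
    intro x
    rw [smul_add, smul_smul, inv_mul_cancel₀ hε.ne', one_smul, add_neg_cancel_right]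
  simp only [e0] at h2
  have h4 := congrArg (fun t => ε ^ (2 / (p - 2) + 2) * t) h2
  rw [← integral_const_mul, ← integral_const_mul] at h4
  have hE : ε ^ (2 / (p - 2) + 2) = ε ^ (2 / (p - 2)) * ε ^ 2 := by
    rw [Real.rpow_add hε]
    norm_num
  have hE1 : ε ^ (2 / (p - 2) + 2) * ε⁻¹ = ε ^ (2 / (p - 2) + 1) := by
    rw [← Real.rpow_neg_one, ← Real.rpow_add hε]
    congr 1; ring
  have hb : 0 < ε ^ (2 / (p - 2)) := Real.rpow_pos_of_pos hε _
  have hE2 : (ε ^ (2 / (p - 2))) ^ (p - 2) = ε ^ 2 := by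
    rw [← Real.rpow_mul hε.le, ← Real.rpow_natCast]
    congr 1
    push_cast
    field_simp
  have e1 : ∀ x, ε ^ (2 / (p - 2) + 2) *
      (inner ℝ (g (ε • x + pt k)) (ε⁻¹ • H x) + u (ε • x + pt k) * w x) =
      inner ℝ (rescG p ε k g x) (H x) + ε ^ 2 * (resc p ε k u x * w x) := by
    intro x
    unfold resc rescG
    rw [inner_smul_right, real_inner_smul_left, ← hE1, hE]
    ring
  have e2 : ∀ x, ε ^ (2 / (p - 2) + 2) *
      (Q ε (ε • x + pt k) * (|u (ε • x + pt k)| ^ (p - 2) * u (ε • x + pt k)) * w x) =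
      Q ε (ε • x + pt k) * (|resc p ε k u x| ^ (p - 2) * resc p ε k u x) * w x := by
    intro x
    unfold resc
    rw [abs_mul, abs_of_pos hb, Real.mul_rpow hb.le (abs_nonneg _), hE2, hE]
    ring
  simp only [e1, e2] at h4
  exact h4

/-- Cauchy-Schwarz -/
theorem cs_int {a b : E N → ℝ} (ha : MemLp a 2 (volume : Measure (E N)))
    (hb : MemLp b 2 (volume : Measure (E N))) :
    |∫ x, a x * b x| ≤ Real.sqrt (∫ x, a x ^ 2) * Real.sqrt (∫ x, b x ^ 2) := by
  have h1 : |∫ x, a x * b x| ≤ ∫ x, |a x| * |b x| := by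
    refine (abs_integral_le_integral_abs).trans (le_of_eq ?_)
    simp only [abs_mul]
  have h2 := integral_mul_le_Lp_mul_Lq_of_nonneg (μ := (volume : Measure (E N)))
    Real.HolderConjugate.two_two (f := fun x => |a x|) (g := fun x => |b x|)
    (Eventually.of_forall fun x => abs_nonneg _) (Eventually.of_forall fun x => abs_nonneg _)
    (by simpa using ha.norm) (by simpa using hb.norm)
  refine h1.trans (h2.trans (le_of_eq ?_))
  rw [Real.sqrt_eq_rpow, Real.sqrt_eq_rpow]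
  have e : ∀ c : E N → ℝ, ∫ x, |c x| ^ (2 : ℝ) = ∫ x, c x ^ 2 := by
    intro c
    refine integral_congr_ae (Eventually.of_forall fun x => ?_)
    simp only
    rw [show (2 : ℝ) = ((2 : ℕ) : ℝ) by norm_num, Real.rpow_natCast, sq_abs]
  rw [e, e]

/-- the nonlinear term -/
theorem nl_bound (hp : 2 < p) {v w : E N → ℝ}
    (hv : MemLp v (ENNReal.ofReal p) (volume : Measure (E N)))
    (hw : MemLp w (ENNReal.ofReal p) (volume : Measure (E N))) :
    Integrable (fun x => |v x| ^ (p - 1) * |w x|) (volume : Measure (E N)) ∧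
    ∫ x, |v x| ^ (p - 1) * |w x| ≤
      (∫ x, |v x| ^ p) ^ (1 - 1 / p) * (∫ x, |w x| ^ p) ^ (1 / p) := by
  have hpq : (Real.conjExponent p).HolderConjugate p :=
    (Real.HolderConjugate.conjExponent (by linarith)).symm
  have hq : Real.conjExponent p = p / (p - 1) := rfl
  have hp1 : p - 1 ≠ 0 := by linarith
  have hp0 : p ≠ 0 := by linarith
  have m1 : MemLp (fun x => |v x| ^ (p - 1)) (ENNReal.ofReal (Real.conjExponent p))
      (volume : Measure (E N)) := by
    have h := hv.norm_rpow_div (ENNReal.ofReal (p - 1))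
    have e1 : ENNReal.ofReal p / ENNReal.ofReal (p - 1) = ENNReal.ofReal (Real.conjExponent p) := by
      rw [hq, ENNReal.ofReal_div_of_pos (by linarith)]
    rw [e1, ENNReal.toReal_ofReal (by linarith)] at h
    exact h
  have m2 : MemLp (fun x => |w x|) (ENNReal.ofReal p) (volume : Measure (E N)) := by
    simpa using hw.norm
  have h2 := integral_mul_le_Lp_mul_Lq_of_nonneg (μ := (volume : Measure (E N)))
    hpq (f := fun x => |v x| ^ (p - 1)) (g := fun x => |w x|)
    (Eventually.of_forall fun x => by positivity) (Eventually.of_forall fun x => abs_nonneg _)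
    m1 m2
  constructor
  · haveI : ENNReal.HolderConjugate (ENNReal.ofReal (Real.conjExponent p)) (ENNReal.ofReal p) :=
      hpq.ennrealOfReal
    exact MemLp.integrable_mul (p := ENNReal.ofReal (Real.conjExponent p))
      (q := ENNReal.ofReal p) m1 m2
  · refine h2.trans (le_of_eq ?_)
    have e1 : ∫ x, (|v x| ^ (p - 1)) ^ Real.conjExponent p = ∫ x, |v x| ^ p := by
      refine integral_congr_ae (Eventually.of_forall fun x => ?_)
      simp only
      rw [← Real.rpow_mul (abs_nonneg _), hq]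
      congr 1
      field_simp
    rw [e1, hq]
    congr 2
    field_simp

end

end Pool.Agent.Q62.PC
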