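import Pool.Agent.Q62.PD.D7

/-! Strong convergence of the gradients. -/

open MeasureTheory Set Filter Topology
open scoped ENNReal NNReal ContDiff

namespace Pool.Agent.Q62.PC

section

variable {N : ℕ} {p : ℝ} {ε : ℕ → ℝ} {u : ℕ → E N → ℝ} {g : ℕ → E N → E N}
  {y k : ℕ → Fin N → ℤ}

theorem int_inner {G H : E N → E N} (hG : MemLp G 2 (volume : Measure (E N)))
    (hH : MemLp H 2 (volume : Measure (E N))) :
    Integrable (fun x => (inner ℝ (G x) (H x) : ℝ)) (volume : Measure (E N)) := by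
  have i1 : Integrable (fun x => ‖G x‖ ^ 2) (volume : Measure (E N)) :=
    hG.integrable_norm_pow (by norm_num)
  have i2 : Integrable (fun x => ‖H x‖ ^ 2) (volume : Measure (E N)) :=
    hH.integrable_norm_pow (by norm_num)
  refine (i1.add i2).mono' (hG.1.inner hH.1) (Eventually.of_forall fun x => ?_)
  have h1 := norm_inner_le_norm (𝕜 := ℝ) (G x) (H x)
  simp only [Pi.add_apply]
  nlinarith [sq_nonneg (‖G x‖ - ‖H x‖), norm_nonneg (G x), norm_nonneg (H x)]

theorem int_mul2 {a b : E N → ℝ} (ha : MemLp a 2 (volume : Measure (E N)))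
    (hb : MemLp b 2 (volume : Measure (E N))) :
    Integrable (fun x => a x * b x) (volume : Measure (E N)) := ha.integrable_mul hb

theorem grad_ineq {ε : ℝ} (hp : 2 < p) (hε : 0 < ε) {u : E N → ℝ} {g : E N → E N}
    (hu : IsSol p ε u g) (k : Fin N → ℤ) {w : E N → ℝ} {H : E N → E N} (hw : InH1 w H)
    (hvp : MemLp (resc p ε k u) (ENNReal.ofReal p) (volume : Measure (E N)))
    (hwp : MemLp w (ENNReal.ofReal p) (volume : Measure (E N))) :
    ∫ x, ‖rescG p ε k g x‖ ^ 2 ≤ (∫ x, inner ℝ (rescG p ε k g x) (H x)) +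
      ε ^ 2 * |∫ x, resc p ε k u x * w x| +
      ∫ x, |resc p ε k u x| ^ (p - 1) * |resc p ε k u x - w x| := by
  have hv := resc_InH1 (p := p) hε hu.1 k
  have h1 := resc_eq hp hε hu k (hv.sub hw)
  set v : E N → ℝ := resc p ε k u with hvdef
  set G : E N → E N := rescG p ε k g with hG
  have iG : Integrable (fun x => ‖G x‖ ^ 2) (volume : Measure (E N)) :=
    hv.2.1.integrable_norm_pow (by norm_num)
  have iGH := int_inner hv.2.1 hw.2.1
  have iv : Integrable (fun x => v x ^ 2) (volume : Measure (E N)) := hv.1.integrable_sq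
  have ivw := int_mul2 hv.1 hw.1
  have inl := (nl_bound hp hvp (hvp.sub hwp)).1
  have inl' : Integrable (fun x => |v x| ^ (p - 1) * |v x - w x|) (volume : Measure (E N)) := inl
  have e1 : ∫ x, (inner ℝ (G x) (G x - H x) + ε ^ 2 * (v x * (v x - w x))) =
      (∫ x, ‖G x‖ ^ 2) - (∫ x, inner ℝ (G x) (H x)) +
        ε ^ 2 * ((∫ x, v x ^ 2) - ∫ x, v x * w x) := by
    have j1 : Integrable (fun x => ‖G x‖ ^ 2 - (inner ℝ (G x) (H x) : ℝ))
        (volume : Measure (E N)) := iG.sub iGH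
    have j2 : Integrable (fun x => ε ^ 2 * (v x ^ 2 - v x * w x)) (volume : Measure (E N)) :=
      (iv.sub ivw).const_mul _
    rw [← integral_sub iG iGH, ← integral_sub iv ivw, ← integral_const_mul,
      ← integral_add j1 j2]
    refine integral_congr_ae (Eventually.of_forall fun x => ?_)
    simp only
    rw [inner_sub_right, real_inner_self_eq_norm_sq]
    ring
  have e2 : ∫ x, Q ε (ε • x + pt k) * (|v x| ^ (p - 2) * v x) * (v x - w x) ≤
      ∫ x, |v x| ^ (p - 1) * |v x - w x| := by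
    have hb : ∀ x, |Q ε (ε • x + pt k) * (|v x| ^ (p - 2) * v x) * (v x - w x)| =
        |v x| ^ (p - 1) * |v x - w x| := by
      intro x
      rw [abs_mul, abs_mul, Q_abs, one_mul, abs_mul, abs_of_nonneg (by positivity :
        0 ≤ |v x| ^ (p - 2))]
      congr 1
      rcases eq_or_ne (v x) 0 with h | h
      · rw [h, abs_zero, mul_zero, Real.zero_rpow (by linarith)]
      · have h0 : 0 < |v x| := abs_pos.2 h
        have : p - 1 = (p - 2) + 1 := by ring
        rw [this, Real.rpow_add h0, Real.rpow_one]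
    calc _ ≤ |∫ x, Q ε (ε • x + pt k) * (|v x| ^ (p - 2) * v x) * (v x - w x)| := le_abs_self _
      _ ≤ ∫ x, |Q ε (ε • x + pt k) * (|v x| ^ (p - 2) * v x) * (v x - w x)| :=
          abs_integral_le_integral_abs
      _ = _ := by simp only [hb]
  rw [e1] at h1
  have hv2 : 0 ≤ ∫ x, v x ^ 2 := integral_nonneg fun x => sq_nonneg _
  have hab := le_abs_self (∫ x, v x * w x)
  have hε2 : 0 ≤ ε ^ 2 := sq_nonneg ε
  have h2 := mul_nonneg hε2 hv2
  have h3 := mul_le_mul_of_nonneg_left hab hε2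
  nlinarith

theorem memLp_p (hp : 2 < p) {v : E N → ℝ}
    (hvm : AEStronglyMeasurable v (volume : Measure (E N)))
    (hv : Integrable (fun x => |v x| ^ p) (volume : Measure (E N))) :
    MemLp v (ENNReal.ofReal p) (volume : Measure (E N)) := by
  have h0 : ENNReal.ofReal p ≠ 0 := by rw [ne_eq, ENNReal.ofReal_eq_zero]; linarith
  refine (integrable_norm_rpow_iff hvm h0 ENNReal.ofReal_ne_top).1 ?_
  rw [ENNReal.toReal_ofReal (by linarith)]
  exact hv

theorem strong (hN : 3 ≤ N) (hp : 2 < p) (hp2 : p * ((N : ℝ) - 2) < 2 * N)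
    (hu : ∀ n, IsLeast p (ε n) (u n) (g n)) (hy : Near ε u g y) {v : E N → ℝ} {G : E N → E N}
    (hvG : InD v G) (hw : WeakD (fun n => rescG p (ε n) (k n) (g n)) G)
    (hv0 : ¬ v =ᵐ[volume] 0) :
    Tendsto (fun n => ∫⁻ x, ‖resc p (ε n) (k n) (u n) x - v x‖ₑ ^ p) atTop (𝓝 0) ∧
    Tendsto (fun n => ∫ x, ‖rescG p (ε n) (k n) (g n) x - G x‖ ^ 2) atTop (𝓝 0) ∧
    MemLp v (ENNReal.ofReal p) (volume : Measure (E N)) := by
  have hk := keq hN hp hp2 hu hy hvG hw hv0
  have hlp := lp_strong hN hp hp2 hu hy hvG hw hk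
  obtain ⟨M, hM0, hM⟩ := grad_bdd (by omega) hp hp2 hy.1 hy.2.1 hu k
  obtain ⟨C0, hC0, HG⟩ := gn N (by omega) p hp hp2
  obtain ⟨c, C', hc, hC', HE⟩ := energy_order N (by omega) p hp hp2
  have hH : ∀ n, InH1 (resc p (ε n) (k n) (u n)) (rescG p (ε n) (k n) (g n)) :=
    fun n => resc_InH1 (hy.1 n) (hu n).1.1 (k n)
  have hD : ∀ n, InD (resc p (ε n) (k n) (u n)) (rescG p (ε n) (k n) (g n)) :=
    fun n => (hH n).inD hN
  have hP : ∀ n, MemLp (resc p (ε n) (k n) (u n)) (ENNReal.ofReal p) (volume : Measure (E N)) :=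
    fun n => memLp_p hp (hH n).1.1 (HG _ _ (hH n)).1
  have hp0 : ENNReal.ofReal p ≠ 0 := by rw [ne_eq, ENNReal.ofReal_eq_zero]; linarith
  have hpr : (ENNReal.ofReal p).toReal = p := ENNReal.toReal_ofReal (by linarith)
  -- the difference is in `L^p` for large `n`
  have hdiff : ∀ᶠ n in atTop, MemLp (fun x => resc p (ε n) (k n) (u n) x - v x) (ENNReal.ofReal p)
      (volume : Measure (E N)) := by
    filter_upwards [hlp.eventually (gt_mem_nhds (show (0 : ℝ≥0∞) < 1 by norm_num))] with n hn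
    refine ⟨(hD n).1.1.sub hvG.1.1, ?_⟩
    rw [eLpNorm_lt_top_iff_lintegral_rpow_enorm_lt_top hp0 ENNReal.ofReal_ne_top, hpr]
    exact hn.trans ENNReal.one_lt_top
  have hvp : MemLp v (ENNReal.ofReal p) (volume : Measure (E N)) := by
    obtain ⟨n, hn⟩ := hdiff.exists
    have h1 := (hP n).sub hn
    have e : (resc p (ε n) (k n) (u n) - fun x => resc p (ε n) (k n) (u n) x - v x) = v := by
      funext x; simp
    rwa [e] at h1
  refine ⟨hlp, ?_, hvp⟩
  set D : ℕ → ℝ := fun n => ∫ x, |resc p (ε n) (k n) (u n) x - v x| ^ p with hDdef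
  have intP : ∀ {f : E N → ℝ}, MemLp f (ENNReal.ofReal p) (volume : Measure (E N)) →
      Integrable (fun x => |f x| ^ p) (volume : Measure (E N)) := by
    intro f hf
    have := hf.integrable_norm_rpow hp0 ENNReal.ofReal_ne_top
    rw [hpr] at this
    exact this
  have hD0 : Tendsto D atTop (𝓝 0) := by
    have h1 := (ENNReal.tendsto_toReal ENNReal.zero_ne_top).comp hlp
    rw [ENNReal.toReal_zero] at h1
    refine h1.congr fun n => ?_
    have h2 := lint_eq (p := p) (by linarith) (intP ((hP n).sub hvp))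
    simp only [Function.comp_apply, Pi.sub_apply] at h2 ⊢
    rw [h2, ENNReal.toReal_ofReal (integral_nonneg fun x => by positivity)]
  set V : ℝ := ∫ x, |v x| ^ p with hV
  have hV0 : 0 ≤ V := integral_nonneg fun x => by positivity
  set B : ℝ := 2 ^ p * (V + 1) with hB
  have hB0 : 0 < B := by positivity
  have iD : ∀ n, Integrable (fun x => |resc p (ε n) (k n) (u n) x - v x| ^ p)
      (volume : Measure (E N)) := fun n => intP ((hP n).sub hvp)
  have hbd : ∀ n, D n < 1 → ∫ x, |resc p (ε n) (k n) (u n) x| ^ p ≤ B := by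
    intro n hn
    have h1 : ∫ x, |resc p (ε n) (k n) (u n) x| ^ p ≤
        ∫ x, 2 ^ p * (|v x| ^ p + |resc p (ε n) (k n) (u n) x - v x| ^ p) := by
      refine integral_mono (intP (hP n))
        (((intP hvp).add (iD n)).const_mul _) fun x => ?_
      have := pow_split (p := p) (a := resc p (ε n) (k n) (u n) x) (b := v x) (by linarith)
      rw [abs_sub_comm] at this
      exact this
    rw [integral_const_mul, integral_add (intP hvp) (iD n)] at h1
    refine h1.trans (mul_le_mul_of_nonneg_left ?_ (by positivity))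
    have : ∫ x, |resc p (ε n) (k n) (u n) x - v x| ^ p = D n := rfl
    linarith
  have hdd : ∀ n m, ∫ x, |resc p (ε n) (k n) (u n) x - resc p (ε m) (k m) (u m) x| ^ p ≤
      2 ^ p * (D m + D n) := by
    intro n m
    have h1 : ∫ x, |resc p (ε n) (k n) (u n) x - resc p (ε m) (k m) (u m) x| ^ p ≤
        ∫ x, 2 ^ p * (|resc p (ε m) (k m) (u m) x - v x| ^ p +
          |resc p (ε n) (k n) (u n) x - v x| ^ p) := by
      refine integral_mono (intP ((hP n).sub (hP m)))
        (((iD m).add (iD n)).const_mul _) fun x => ?_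
      have := pow_split (p := p)
        (a := resc p (ε n) (k n) (u n) x - resc p (ε m) (k m) (u m) x)
        (b := -(resc p (ε m) (k m) (u m) x - v x)) (by linarith)
      have e : -(resc p (ε m) (k m) (u m) x - v x) -
          (resc p (ε n) (k n) (u n) x - resc p (ε m) (k m) (u m) x) =
          -(resc p (ε n) (k n) (u n) x - v x) := by ring
      rw [e, abs_neg, abs_neg] at this
      exact this
    rw [integral_const_mul, integral_add (iD m) (iD n)] at h1
    exact h1
  set L : ℝ := ∫ x, ‖G x‖ ^ 2 with hL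
  have hGG := hw v G hvG
  have eL : ∫ x, (inner ℝ (G x) (G x) : ℝ) = L := by
    simp only [real_inner_self_eq_norm_sq, hL]
  rw [eL] at hGG
  have hexp : ∀ n, ∫ x, ‖rescG p (ε n) (k n) (g n) x - G x‖ ^ 2 =
      (∫ x, ‖rescG p (ε n) (k n) (g n) x‖ ^ 2) -
        2 * (∫ x, inner ℝ (rescG p (ε n) (k n) (g n) x) (G x)) + L := by
    intro n
    have i1 : Integrable (fun x => ‖rescG p (ε n) (k n) (g n) x‖ ^ 2) (volume : Measure (E N)) :=
      (hH n).2.1.integrable_norm_pow (by norm_num)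
    have i2 : Integrable (fun x => ‖G x‖ ^ 2) (volume : Measure (E N)) :=
      hvG.2.1.integrable_norm_pow (by norm_num)
    have i3 := int_inner (hH n).2.1 hvG.2.1
    have j1 : Integrable (fun x => ‖rescG p (ε n) (k n) (g n) x‖ ^ 2 -
        2 * (inner ℝ (rescG p (ε n) (k n) (g n) x) (G x) : ℝ)) (volume : Measure (E N)) :=
      i1.sub (i3.const_mul 2)
    rw [hL, ← integral_const_mul, ← integral_sub i1 (i3.const_mul 2), ← integral_add j1 i2]
    refine integral_congr_ae (Eventually.of_forall fun x => ?_)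
    simp only
    rw [norm_sub_sq_real]
  -- upper bound of the norms
  have hupper : ∀ e : ℝ, 0 < e → ∀ᶠ n in atTop,
      ∫ x, ‖rescG p (ε n) (k n) (g n) x‖ ^ 2 ≤ L + 4 * e := by
    intro e he
    -- choice of `d`
    have hdlim : Tendsto (fun d : ℝ => B ^ (1 - 1 / p) * (2 ^ p * (d + d)) ^ (1 / p)) (𝓝[>] 0)
        (𝓝 0) := by
      have h1 : Tendsto (fun d : ℝ => (2 : ℝ) ^ p * (d + d)) (𝓝[>] 0) (𝓝 0) := by
        have : Tendsto (fun d : ℝ => (2 : ℝ) ^ p * (d + d)) (𝓝 0) (𝓝 (2 ^ p * (0 + 0))) :=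
          Continuous.tendsto (by fun_prop) 0
        rw [add_zero, mul_zero] at this
        exact this.mono_left nhdsWithin_le_nhds
      have h2 := (Real.continuousAt_rpow_const 0 (1 / p) (Or.inr (by positivity))).tendsto
      rw [Real.zero_rpow (by positivity)] at h2
      have h3 := (h2.comp h1).const_mul (B ^ (1 - 1 / p))
      rw [mul_zero] at h3
      exact h3
    obtain ⟨d, hd1, hd2⟩ := ((hdlim.eventually (gt_mem_nhds he)).and self_mem_nhdsWithin).exists
    have hd : 0 < d := hd2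
    obtain ⟨m, hm1, hm2⟩ := ((hD0.eventually (gt_mem_nhds hd)).and
      (hGG.eventually (gt_mem_nhds (show L < L + e by linarith)))).exists
    have hGm := hw _ _ (hD m)
    have hsym : ∫ x, (inner ℝ (G x) (rescG p (ε m) (k m) (g m) x) : ℝ) =
        ∫ x, inner ℝ (rescG p (ε m) (k m) (g m) x) (G x) := by
      refine integral_congr_ae (Eventually.of_forall fun x => ?_)
      simp only
      rw [real_inner_comm]
    rw [hsym] at hGm
    set Vm : ℝ := ∫ x, resc p (ε m) (k m) (u m) x ^ 2 with hVm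
    have hεV : Tendsto (fun n => ε n * (Real.sqrt C' * Real.sqrt Vm)) atTop (𝓝 0) := by
      have := hy.2.1.mul_const (Real.sqrt C' * Real.sqrt Vm)
      simpa using this
    filter_upwards [hGm.eventually (gt_mem_nhds (show
        (∫ x, (inner ℝ (rescG p (ε m) (k m) (g m) x) (G x) : ℝ)) <
        (∫ x, (inner ℝ (rescG p (ε m) (k m) (g m) x) (G x) : ℝ)) + e by linarith)),
      hD0.eventually (gt_mem_nhds hd),
      hD0.eventually (gt_mem_nhds (show (0 : ℝ) < 1 by norm_num)),
      hεV.eventually (gt_mem_nhds he),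
      hy.2.1.eventually (gt_mem_nhds (show (0 : ℝ) < 1 / 16 by norm_num))] with n a1 a2 a2' a3 a4
    have h1 := grad_ineq hp (hy.1 n) (hu n).1 (k n) (hH m) (hP n) (hP m)
    -- the quadratic term
    have h2 : ε n ^ 2 * |∫ x, resc p (ε n) (k n) (u n) x * resc p (ε m) (k m) (u m) x| ≤ e := by
      have b1 := cs_int (hH n).1 (hH m).1
      have b2 : ε n ^ 2 * ∫ x, resc p (ε n) (k n) (u n) x ^ 2 ≤ C' := by
        rw [resc_sq hp (hy.1 n)]
        refine le_trans (mul_le_mul_of_nonneg_left ?_ (Real.rpow_nonneg (hy.1 n).le _))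
          (HE (ε n) (hy.1 n) a4.le (u n) (g n) (hu n)).2
        refine integral_mono (hu n).1.1.1.integrable_sq (int_dens (hu n).1.1) fun x => ?_
        simp only [dens]
        nlinarith [sq_nonneg ‖g n x‖]
      have b3 : ε n * Real.sqrt (∫ x, resc p (ε n) (k n) (u n) x ^ 2) ≤ Real.sqrt C' := by
        refine Real.le_sqrt_of_sq_le ?_
        rw [mul_pow, Real.sq_sqrt (integral_nonneg fun x => sq_nonneg _)]
        exact b2
      have hεn := hy.1 n
      calc ε n ^ 2 * |∫ x, resc p (ε n) (k n) (u n) x * resc p (ε m) (k m) (u m) x|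
          ≤ ε n ^ 2 * (Real.sqrt (∫ x, resc p (ε n) (k n) (u n) x ^ 2) * Real.sqrt Vm) :=
            mul_le_mul_of_nonneg_left b1 (sq_nonneg _)
        _ = (ε n * Real.sqrt Vm) *
            (ε n * Real.sqrt (∫ x, resc p (ε n) (k n) (u n) x ^ 2)) := by ring
        _ ≤ (ε n * Real.sqrt Vm) * Real.sqrt C' :=
            mul_le_mul_of_nonneg_left b3 (by positivity)
        _ ≤ e := by
            have : (ε n * Real.sqrt Vm) * Real.sqrt C' = ε n * (Real.sqrt C' * Real.sqrt Vm) := by
              ring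
            rw [this]; exact a3.le
    -- the nonlinear term
    have h3 : ∫ x, |resc p (ε n) (k n) (u n) x| ^ (p - 1) *
        |resc p (ε n) (k n) (u n) x - resc p (ε m) (k m) (u m) x| ≤ e := by
      have b1 := (nl_bound hp (hP n) ((hP n).sub (hP m))).2
      have b2 : (∫ x, |resc p (ε n) (k n) (u n) x| ^ p) ^ (1 - 1 / p) ≤ B ^ (1 - 1 / p) := by
        refine Real.rpow_le_rpow (integral_nonneg fun x => by positivity) (hbd n a2') ?_
        rw [sub_nonneg, div_le_one (by linarith)]; linarith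
      have b3 : (∫ x, |(resc p (ε n) (k n) (u n) - resc p (ε m) (k m) (u m)) x| ^ p) ^ (1 / p) ≤
          (2 ^ p * (d + d)) ^ (1 / p) := by
        refine Real.rpow_le_rpow (integral_nonneg fun x => by positivity) ?_ (by positivity)
        refine (hdd n m).trans (mul_le_mul_of_nonneg_left ?_ (by positivity))
        linarith
      refine le_trans b1 (le_trans ?_ hd1.le)
      exact mul_le_mul b2 b3 (Real.rpow_nonneg (integral_nonneg fun x => by positivity) _)
        (by positivity)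
    linarith
  rw [Metric.tendsto_atTop]
  intro e he
  obtain ⟨n0, hn0⟩ := eventually_atTop.1 ((hupper (e / 8) (by positivity)).and
    (hGG.eventually (lt_mem_nhds (show L - e / 8 < L by linarith))))
  refine ⟨n0, fun n hn => ?_⟩
  obtain ⟨a1, a2⟩ := hn0 n hn
  rw [Real.dist_eq, sub_zero, abs_of_nonneg (integral_nonneg fun x => sq_nonneg _), hexp]
  linarith

/-- Q2 -/
theorem Q2 (hN : 3 ≤ N) (hp : 2 < p) (hp2 : p * ((N : ℝ) - 2) < 2 * N)
    (hε : ∀ n, 0 < ε n) (hε0 : Tendsto ε atTop (𝓝 0)) (hu : ∀ n, IsLeast p (ε n) (u n) (g n))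
    {φ : ℕ → ℕ} (hφ : StrictMono φ) {v : E N → ℝ} {G : E N → E N}
    (hvG : InD v G) (hw : WeakD (fun n => rescG p (ε (φ n)) (k (φ n)) (g (φ n))) G)
    (hv0 : ¬ v =ᵐ[volume] 0) :
    MemLp v (ENNReal.ofReal p) (volume : Measure (E N)) ∧
    Tendsto (fun n => eLpNorm (resc p (ε (φ n)) (k (φ n)) (u (φ n)) - v) (ENNReal.ofReal p) volume)
      atTop (𝓝 0) ∧
    Tendsto (fun n => eLpNorm (rescG p (ε (φ n)) (k (φ n)) (g (φ n)) - G) 2 volume)
      atTop (𝓝 0) := by
  obtain ⟨y, hy⟩ := exists_near (ε := fun n => ε (φ n)) (u := fun n => u (φ n))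
    (g := fun n => g (φ n)) (by omega) hp hp2 (fun n => hε (φ n)) (hε0.comp hφ.tendsto_atTop)
    (fun n => hu (φ n))
  obtain ⟨h1, h2, h3⟩ := strong (k := fun n => k (φ n)) hN hp hp2 (fun n => hu (φ n)) hy hvG hw hv0
  refine ⟨h3, ?_, ?_⟩
  · have hp0 : ENNReal.ofReal p ≠ 0 := by rw [ne_eq, ENNReal.ofReal_eq_zero]; linarith
    have hpr : (ENNReal.ofReal p).toReal = p := ENNReal.toReal_ofReal (by linarith)
    have e : ∀ n, eLpNorm (resc p (ε (φ n)) (k (φ n)) (u (φ n)) - v) (ENNReal.ofReal p) volume =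
        (∫⁻ x, ‖resc p (ε (φ n)) (k (φ n)) (u (φ n)) x - v x‖ₑ ^ p) ^ (1 / p) := by
      intro n
      rw [eLpNorm_eq_lintegral_rpow_enorm_toReal hp0 ENNReal.ofReal_ne_top, hpr]
      rfl
    simp only [e]
    have h4 := ((ENNReal.continuous_rpow_const (y := 1 / p)).tendsto 0).comp h1
    rw [ENNReal.zero_rpow_of_pos (by positivity)] at h4
    exact h4
  · have hm : ∀ n, MemLp (rescG p (ε (φ n)) (k (φ n)) (g (φ n)) - G) 2
        (volume : Measure (E N)) :=
      fun n => (resc_InH1 (p := p) (hε (φ n)) (hu (φ n)).1.1 (k (φ n))).2.1.sub hvG.2.1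
    have e : ∀ n, eLpNorm (rescG p (ε (φ n)) (k (φ n)) (g (φ n)) - G) 2 volume =
        ENNReal.ofReal (Real.sqrt (∫ x, ‖rescG p (ε (φ n)) (k (φ n)) (g (φ n)) x - G x‖ ^ 2)) := by
      intro n
      have h5 := int_sq (hm n)
      have h6 : ∫ x, ‖rescG p (ε (φ n)) (k (φ n)) (g (φ n)) x - G x‖ ^ 2 =
          (eLpNorm (rescG p (ε (φ n)) (k (φ n)) (g (φ n)) - G) 2 volume).toReal ^ 2 := h5
      rw [h6, Real.sqrt_sq ENNReal.toReal_nonneg, ENNReal.ofReal_toReal (hm n).2.ne]
    simp only [e]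
    have h4 := ENNReal.tendsto_ofReal ((Real.continuous_sqrt.tendsto 0).comp h2)
    rw [Real.sqrt_zero, ENNReal.ofReal_zero] at h4
    exact h4

end

end Pool.Agent.Q62.PC
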